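import Mathlib
/-! helper924, MP_8115c2_gt, job AUE: Auerbach's lemma for a compact spanning set.
PROOF IN WORDS. Maximise `|det (u_1, …, u_n)|` over `u ∈ B^n` (compact; the maximum is positive since `B` spans). The maximiser is a
basis; let `b_i` be the dual basis. For `v ∈ B` replacing `u_i` by `v` multiplies the determinant by `b_i v`, so `|b_i v| ≤ 1`.
(Earlier version for bodies in `Fin n → ℝ`: `auerbach` in `Pool/Agent/R753/LPM/Gap.lean` of the starting tree.) -/
namespace Pool.Agent.Helper924_BV

/-- Auerbach lemma -/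
theorem auerbach {n : ℕ} (B : Set (EuclideanSpace ℝ (Fin n))) (hB : IsCompact B)
    (hs : Submodule.span ℝ B = ⊤) :
    ∃ (u : Fin n → EuclideanSpace ℝ (Fin n)) (b : Fin n → EuclideanSpace ℝ (Fin n) →ₗ[ℝ] ℝ),
      (∀ i, u i ∈ B) ∧ (∀ v ∈ B, ∀ i, |b i v| ≤ 1) ∧ ∀ v, v = ∑ i, b i v • u i := by
  classical
  let e := (EuclideanSpace.basisFun (Fin n) ℝ).toBasis
  have hcont : Continuous fun u : Fin n → EuclideanSpace ℝ (Fin n) => |e.det u| := by
    have h0 : (fun u : Fin n → EuclideanSpace ℝ (Fin n) => |e.det u|)
        = fun u => |(e.toMatrix u).det| := by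
      funext u
      rw [Module.Basis.det_apply]
    rw [h0]
    refine Continuous.abs ?_
    refine Continuous.matrix_det (continuous_matrix fun i j => ?_)
    change Continuous fun u : Fin n → EuclideanSpace ℝ (Fin n) => e.repr (u j) i
    have : (fun u : Fin n → EuclideanSpace ℝ (Fin n) => e.repr (u j) i) = fun u => u j i := by
      funext u
      simp [e]
    rw [this]
    fun_prop
  -- a basis in `B`
  obtain ⟨w, hwB, hw0⟩ : ∃ w : Fin n → EuclideanSpace ℝ (Fin n), (∀ i, w i ∈ B) ∧ e.det w ≠ 0 := by
    obtain ⟨s, hsB, hspan, hli⟩ := exists_linearIndependent ℝ B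
    rw [hs] at hspan
    let bs : Module.Basis s ℝ (EuclideanSpace ℝ (Fin n)) := Module.Basis.mk hli (by
      rw [Subtype.range_coe]; exact hspan.ge)
    have : Finite s := Module.Finite.finite_basis bs
    have := Fintype.ofFinite s
    have hcard : Fintype.card s = n := by
      rw [← Module.finrank_eq_card_basis bs]
      simp
    let bn := bs.reindex (Fintype.equivFinOfCardEq hcard)
    refine ⟨bn, fun i => ?_, ?_⟩
    · have : bn i = ((Fintype.equivFinOfCardEq hcard).symm i : EuclideanSpace ℝ (Fin n)) := by
        simp [bn, bs]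
      rw [this]
      exact hsB ((Fintype.equivFinOfCardEq hcard).symm i).2
    · exact (e.isUnit_det bn).ne_zero
  have hcomp : IsCompact (Set.pi Set.univ fun _ : Fin n => B) := isCompact_univ_pi fun _ => hB
  obtain ⟨u, huB, humax⟩ := hcomp.exists_isMaxOn ⟨w, fun i _ => hwB i⟩ hcont.continuousOn
  have huB' : ∀ i, u i ∈ B := fun i => huB i (Set.mem_univ i)
  have hmax : ∀ w : Fin n → EuclideanSpace ℝ (Fin n), (∀ i, w i ∈ B) → |e.det w| ≤ |e.det u| :=
    fun w hw => humax (a := w) (fun i _ => hw i)
  have hu0 : e.det u ≠ 0 := by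
    have h1 := hmax w hwB
    have h2 : 0 < |e.det w| := abs_pos.2 hw0
    exact abs_pos.1 (lt_of_lt_of_le h2 h1)
  obtain ⟨hli, hsp⟩ := (Module.Basis.is_basis_iff_det e).2 (isUnit_iff_ne_zero.2 hu0)
  let bb : Module.Basis (Fin n) ℝ (EuclideanSpace ℝ (Fin n)) := Module.Basis.mk hli hsp.ge
  have hbb : ⇑bb = u := Module.Basis.coe_mk _ _
  refine ⟨u, fun i => bb.coord i, huB', ?_, ?_⟩
  · intro v hv i
    have h1 : e.det (Function.update u i v) = e.det u * bb.coord i v := by
      have h2 := AlternatingMap.eq_smul_basis_det bb e.det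
      have h3 : e.det (Function.update u i v) = e.det bb * bb.det (Function.update u i v) := by
        conv_lhs => rw [h2]
        rfl
      rw [h3, hbb]
      congr 1
      rw [← hbb, Module.Basis.det_apply, Module.Basis.toMatrix_update, Module.Basis.toMatrix_self,
        ← Matrix.cramer_apply, Matrix.cramer_one]
      rfl
    have h4 := hmax (Function.update u i v) (fun j => by
      by_cases hj : j = i
      · subst hj; simpa using hv
      · simpa [Function.update_of_ne hj] using huB' j)
    rw [h1, abs_mul] at h4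
    have h5 : 0 < |e.det u| := abs_pos.2 hu0
    exact le_of_mul_le_mul_left (by linarith) h5
  · intro v
    have := bb.sum_repr v
    rw [hbb] at this
    exact this.symm

end Pool.Agent.Helper924_BV

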