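import Mathlib
/-! helper924, MP_8115c2_gt, job BER0: a Bernstein type inequality at the origin. -/
namespace Pool.Agent.Helper924_BV

open Polynomial

private theorem oddsum (a : ℕ → ℝ) (x : ℝ) (m : ℕ) :
    (∑ k ∈ Finset.range (m + 1), a k * x ^ k) - (∑ k ∈ Finset.range (m + 1), a k * (-x) ^ k)
      = 2 * ∑ j ∈ Finset.range ((m + 1) / 2), a (2 * j + 1) * x ^ (2 * j + 1) := by
  induction m with
  | zero => simp
  | succ m ih =>
    rw [Finset.sum_range_succ (fun k => a k * x ^ k) (m + 1),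
      Finset.sum_range_succ (fun k => a k * (-x) ^ k) (m + 1)]
    rcases Nat.even_or_odd' m with ⟨p, hp | hp⟩
    · have h1 : (m + 1) / 2 = p := by omega
      have h2 : (m + 1 + 1) / 2 = p + 1 := by omega
      rw [h1] at ih
      rw [h2, Finset.sum_range_succ (fun j => a (2 * j + 1) * x ^ (2 * j + 1)) p]
      have h3 : (-x) ^ (m + 1) = - x ^ (m + 1) := Odd.neg_pow ⟨p, by omega⟩ x
      rw [h3]
      have h4 : m + 1 = 2 * p + 1 := by omega
      have ih' := ih
      rw [h4] at ih' ⊢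
      linarith
    · have h1 : (m + 1) / 2 = p + 1 := by omega
      have h2 : (m + 1 + 1) / 2 = p + 1 := by omega
      rw [h1] at ih
      rw [h2]
      have h3 : (-x) ^ (m + 1) = x ^ (m + 1) := Even.neg_pow ⟨p + 1, by omega⟩ x
      rw [h3]
      linarith

private theorem bern0_pos (m : ℕ) (hm : 0 < m) (a : ℕ → ℝ) (c : ℝ) (hc : 0 < c)
    (h : ∀ x : ℝ, |x| ≤ 1 / 2 → |∑ k ∈ Finset.range (m + 1), a k * x ^ k| ≤ c) :
    |a 1| ≤ 2 * m * c := by
  classical
  set R : ℝ[X] := ∑ j ∈ Finset.range ((m + 1) / 2), C (a (2 * j + 1)) * X ^ j with hR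
  have hRev : ∀ y : ℝ, R.eval y = ∑ j ∈ Finset.range ((m + 1) / 2), a (2 * j + 1) * y ^ j := by
    intro y
    rw [hR, eval_finsetSum]
    simp
  have hbd : ∀ x : ℝ, |x| ≤ 1 / 2 → |x * R.eval (x ^ 2)| ≤ c := by
    intro x hx
    have e1 : x * R.eval (x ^ 2) =
        ((∑ k ∈ Finset.range (m + 1), a k * x ^ k)
          - (∑ k ∈ Finset.range (m + 1), a k * (-x) ^ k)) / 2 := by
      rw [oddsum, hRev, Finset.mul_sum, mul_comm (2 : ℝ), mul_div_assoc, div_self (two_ne_zero),
        mul_one]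
      apply Finset.sum_congr rfl
      intro j _
      rw [pow_succ x (2 * j), pow_mul]
      ring
    have b1 := abs_le.mp (h x hx)
    have b2 := abs_le.mp (h (-x) (by rwa [abs_neg]))
    rw [e1, abs_le]
    constructor <;> linarith [b1.1, b1.2, b2.1, b2.2]
  set S : ℝ[X] := X * R ^ 2 with hS
  set Q : ℝ[X] := 1 - C (2 / c ^ 2) * (S.comp (C (1 / 8) * (1 - X))) with hQ
  have hRdeg : R.natDegree ≤ (m + 1) / 2 - 1 := by
    rw [hR]
    apply natDegree_sum_le_of_forall_le
    intro j hj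
    have := Finset.mem_range.mp hj
    exact (natDegree_C_mul_X_pow_le _ _).trans (by omega)
  have hSdeg : S.natDegree ≤ m := by
    rw [hS]
    have h1 : (X * R ^ 2 : ℝ[X]).natDegree ≤ 1 + 2 * R.natDegree := by
      refine natDegree_mul_le.trans ?_
      refine add_le_add natDegree_X_le natDegree_pow_le
    omega
  have hlin : (C (1 / 8) * (1 - X) : ℝ[X]).natDegree ≤ 1 := by
    compute_degree
  have hQdeg : Q.natDegree ≤ m := by
    rw [hQ]
    refine (natDegree_sub_le _ _).trans ?_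
    rw [max_le_iff]
    refine ⟨by simp, ?_⟩
    refine (natDegree_C_mul_le _ _).trans ?_
    refine natDegree_comp_le.trans ?_
    calc S.natDegree * (C (1 / 8) * (1 - X) : ℝ[X]).natDegree ≤ m * 1 :=
          Nat.mul_le_mul hSdeg hlin
      _ = m := mul_one m
  have hQdeg' : Q.degree ≤ m := natDegree_le_iff_degree_le.mp hQdeg
  have hQb : ∀ x ∈ Set.Icc (-1 : ℝ) 1, |Q.eval x| ≤ 1 := by
    intro t ht
    have hy0 : 0 ≤ 1 / 8 * (1 - t) := by linarith [ht.2]
    have hy1 : 1 / 8 * (1 - t) ≤ 1 / 4 := by linarith [ht.1]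
    set y : ℝ := 1 / 8 * (1 - t) with hy
    have hQe : Q.eval t = 1 - 2 / c ^ 2 * (y * R.eval y ^ 2) := by
      rw [hQ, hS]
      simp [eval_comp, hy]
    have hx2 : Real.sqrt y ^ 2 = y := Real.sq_sqrt hy0
    have hx : |Real.sqrt y| ≤ 1 / 2 := by
      rw [abs_of_nonneg (Real.sqrt_nonneg y)]
      rw [Real.sqrt_le_left (by norm_num)]
      linarith
    have hb := hbd _ hx
    rw [hx2] at hb
    have hb2 : y * R.eval y ^ 2 ≤ c ^ 2 := by
      have : y * R.eval y ^ 2 = (Real.sqrt y * R.eval y) ^ 2 := by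
        rw [mul_pow, hx2]
      rw [this]
      exact sq_le_sq' (abs_le.mp hb).1 (abs_le.mp hb).2
    have hb0 : 0 ≤ y * R.eval y ^ 2 := mul_nonneg hy0 (sq_nonneg _)
    have hc2 : 0 < c ^ 2 := by positivity
    have h3 : 2 / c ^ 2 * (y * R.eval y ^ 2) ≤ 2 := by
      calc 2 / c ^ 2 * (y * R.eval y ^ 2) ≤ 2 / c ^ 2 * c ^ 2 := by gcongr
        _ = 2 := by field_simp
    have h4 : 0 ≤ 2 / c ^ 2 * (y * R.eval y ^ 2) := by positivity
    rw [hQe, abs_le]
    constructor <;> linarith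
  have hM := Polynomial.Chebyshev.eval_iterate_derivative_le_of_forall_abs_le_one (k := 1)
    (x := 1) le_rfl hQdeg' hQb
  have hT : (derivative^[1] (Polynomial.Chebyshev.T ℝ (m : ℤ))).eval 1 = (m : ℝ) ^ 2 := by
    rw [Function.iterate_one, Polynomial.Chebyshev.T_derivative_eq_U]
    rw [eval_mul, Polynomial.Chebyshev.U_eval_one]
    simp
    ring
  have hD : (derivative^[1] Q).eval 1 = a 1 ^ 2 / (4 * c ^ 2) := by
    rw [Function.iterate_one, hQ, hS]
    have hR0 : R.eval 0 = a 1 := by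
      rw [hRev, Finset.sum_eq_single 0]
      · simp
      · intro j _ hj
        simp [hj]
      · intro h0
        exfalso
        apply h0
        rw [Finset.mem_range]
        omega
    simp [derivative_mul, hR0, eval_comp]
    field_simp
    ring
  rw [hT, hD, div_le_iff₀ (by positivity)] at hM
  have h5 : a 1 ^ 2 ≤ (2 * m * c) ^ 2 := by
    calc a 1 ^ 2 ≤ (m : ℝ) ^ 2 * (4 * c ^ 2) := hM
      _ = (2 * m * c) ^ 2 := by ring
  exact abs_le_of_sq_le_sq h5 (by positivity)

/-- Bernstein's inequality at the origin for the interval `[-1/2, 1/2]`. -/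
theorem bern0 (m : ℕ) (hm : 0 < m) (a : ℕ → ℝ) (C : ℝ)
    (h : ∀ x : ℝ, |x| ≤ 1 / 2 → |∑ k ∈ Finset.range (m + 1), a k * x ^ k| ≤ C) :
    |a 1| ≤ 2 * m * C := by
  have hC : 0 ≤ C := (abs_nonneg _).trans (h 0 (by norm_num))
  have hm' : (0 : ℝ) < m := by exact_mod_cast hm
  have key : ∀ ε : ℝ, 0 < ε → |a 1| ≤ 2 * m * C + ε := by
    intro ε hε
    have := bern0_pos m hm a (C + ε / (2 * m)) (by positivity)
      (fun x hx => (h x hx).trans (by have : 0 < ε / (2 * (m:ℝ)) := by positivity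
                                      linarith))
    calc |a 1| ≤ 2 * m * (C + ε / (2 * m)) := this
      _ = 2 * m * C + ε := by field_simp
  exact le_of_forall_pos_le_add key

end Pool.Agent.Helper924_BV

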