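import Pool.Agent.Helper924_BV.Piece

open MeasureTheory Metric Set Filter
open scoped ENNReal NNReal Pointwise Topology

namespace Pool.Agent.Helper924_BV

lemma volume_zero_iff {n : ℕ} (s : Set (E n)) : volume s = 0 ↔ μH[(n : ℝ)] s = 0 := by
  have h1 : (volume : Measure (E n)) ≪ μH[(n : ℝ)] :=
    Measure.absolutelyContinuous_isAddHaarMeasure _ _
  have h2 : (μH[(n : ℝ)] : Measure (E n)) ≪ volume :=
    Measure.absolutelyContinuous_isAddHaarMeasure _ _
  exact ⟨fun h => h2 h, fun h => h1 h⟩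

/-- Lipschitz images in `ℝⁿ` of `μH[n]`-null sets are Lebesgue null -/
lemma volume_image_zero {n : ℕ} {X : Type*} [MetricSpace X] [MeasurableSpace X] [BorelSpace X] {f : X → E n}
    {s : Set X} {C : ℝ≥0} (hf : LipschitzOnWith C f s) (hs : μH[(n : ℝ)] s = 0) : volume (f '' s) = 0 := by
  rw [volume_zero_iff]
  have := hf.hausdorffMeasure_image_le (d := n) (by positivity)
  rw [hs, mul_zero] at this
  exact le_antisymm this bot_le

/-- the composition of a continuous linear map with a Lipschitz map -/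
lemma lip_comp {n : ℕ} {ι : Type*} [Fintype ι] {X : Type*} [MetricSpace X] (P : (ι → ℝ) →L[ℝ] E n) {F : X → (ι → ℝ)}
    (hF : LipschitzWith 1 F) : LipschitzWith (‖P‖₊ * 1) (fun x => P (F x)) :=
  P.lipschitz.comp hF

theorem chart {n : ℕ} (hn : 0 < n) {ι J : Type*} [Fintype ι] [Fintype J] (w : J → ℝ≥0)
    (P : J → (ι → ℝ) →L[ℝ] E n) (M : ℝ≥0) (H : DetBound w P M)
    {X : Type} [MetricSpace X] [MeasurableSpace X] [BorelSpace X] (F : X → (ι → ℝ)) (hF : LipschitzWith 1 F)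
    (φ : E n → X) (A : Set (E n)) (hA : IsCompact A) (L : ℝ≥0) (hφ : LipschitzOnWith L φ A)
    (Y : Set X) (hY : MeasurableSet Y) (hYA : Y ⊆ φ '' A) :
    ∑ j, (w j : ℝ≥0∞) * volume (P j '' (F '' Y)) ≤ M * (1 / 2 ^ n) * μH[(n : ℝ)] Y := by
  classical
  suffices key : ∀ η : ℝ≥0, 0 < η → ∑ j, (w j : ℝ≥0∞) * volume (P j '' (F '' Y)) ≤
      (1 + η) * M * (1 / 2 ^ n) * μH[(n : ℝ)] Y + η * volume A by
    set c : ℝ≥0∞ := M * (1 / 2 ^ n) * μH[(n : ℝ)] Y with hc
    by_cases hct : c = ∞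
    · rw [hct]; exact le_top
    have h1 : Tendsto (fun η : ℝ≥0 => (η : ℝ≥0∞) * (c + volume A)) (𝓝[>] 0) (𝓝 0) := by
      have h2 : Tendsto (fun η : ℝ≥0 => (η : ℝ≥0∞) * (c + volume A)) (𝓝 0) (𝓝 (((0 : ℝ≥0) : ℝ≥0∞) * (c + volume A))) :=
        ENNReal.Tendsto.mul_const (ENNReal.tendsto_coe.2 tendsto_id)
          (Or.inr (ENNReal.add_ne_top.2 ⟨hct, hA.measure_lt_top.ne⟩))
      rw [ENNReal.coe_zero, zero_mul] at h2
      exact h2.mono_left nhdsWithin_le_nhds
    refine ENNReal.le_of_forall_pos_le_add fun ε hε _ => ?_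
    have hε' : (0 : ℝ≥0∞) < ε := by exact_mod_cast hε
    obtain ⟨η, h2, h3⟩ := ((h1.eventually_lt_const hε').and self_mem_nhdsWithin).exists
    calc ∑ j, (w j : ℝ≥0∞) * volume (P j '' (F '' Y)) ≤ (1 + η) * M * (1 / 2 ^ n) * μH[(n : ℝ)] Y + η * volume A := key η h3
      _ = c + η * (c + volume A) := by rw [hc]; ring
      _ ≤ c + ε := by gcongr
  intro η hη
  choose δ hδ0 hδ using fun G => piece hn w P M H η hη G
  -- the preimage of `Y` in the chart
  set s₀ : Set (E n) := {x | x ∈ A ∧ φ x ∈ Y} with hs₀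
  have hmeas : ∀ Z : Set X, MeasurableSet Z → MeasurableSet {x | x ∈ A ∧ φ x ∈ Z} := by
    intro Z hZ
    have h1 : Measurable (A.domRestrict φ) := hφ.continuousOn.domRestrict.measurable
    have h2 := MeasurableSet.subtype_image hA.measurableSet (h1 hZ)
    convert h2 using 1
    ext x
    constructor
    · intro hx
      exact ⟨⟨x, hx.1⟩, hx.2, rfl⟩
    · rintro ⟨y, hy, rfl⟩
      exact ⟨y.2, hy⟩
  have hs₀m : MeasurableSet s₀ := hmeas Y hY
  have hs₀A : s₀ ⊆ A := fun x hx => hx.1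
  have hφs₀ : φ '' s₀ = Y := by
    apply Subset.antisymm
    · rintro _ ⟨x, hx, rfl⟩; exact hx.2
    · intro y hy
      obtain ⟨x, hx, rfl⟩ := hYA hy
      exact ⟨x, ⟨hx, hy⟩, rfl⟩
  -- Lipschitz extension of `F ∘ φ`
  have hg : LipschitzOnWith (1 * L) (F ∘ φ) A := hF.comp_lipschitzOnWith hφ
  obtain ⟨g, hgL, hgeq⟩ := hg.extend_pi
  have hgae : ∀ᵐ x ∂(volume : Measure (E n)), DifferentiableAt ℝ g x := hgL.ae_differentiableAt
  set D : Set (E n) := {x | DifferentiableAt ℝ g x} with hD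
  have hDm : MeasurableSet D := measurableSet_of_differentiableAt ℝ g
  have hD0 : volume Dᶜ = 0 := hgae
  set s : Set (E n) := s₀ ∩ D with hs
  have hsm : MeasurableSet s := hs₀m.inter hDm
  have hder : ∀ x ∈ s, HasFDerivWithinAt (F ∘ φ) (fderiv ℝ g x) s x := by
    intro x hx
    have h1 : HasFDerivWithinAt g (fderiv ℝ g x) s x := (DifferentiableAt.hasFDerivAt hx.2).hasFDerivWithinAt
    exact h1.congr (fun y hy => hgeq (hs₀A hy.1)) (hgeq (hs₀A hx.1))
  obtain ⟨t, G, -, htm, hst, happ, -⟩ :=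
    exists_partition_approximatesLinearOn_of_hasFDerivWithinAt (F ∘ φ) s (fun x => fderiv ℝ g x) hder δ
      (fun G => (hδ0 G).ne')
  -- compact pieces
  have hfin : ∀ k, volume (s ∩ t k) ≠ ∞ := fun k =>
    ((measure_mono (inter_subset_left.trans (inter_subset_left.trans hs₀A))).trans_lt hA.measure_lt_top).ne
  have hex : ∀ k l : ℕ, ∃ K ⊆ s ∩ t k, IsCompact K ∧ volume ((s ∩ t k) \ K) < ((l : ℝ≥0∞) + 1)⁻¹ := fun k l =>
    (hsm.inter (htm k)).exists_isCompact_sdiff_lt (hfin k) (by simp)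
  choose K hKs hKc hKd using hex
  set N : Set (E n) := s₀ \ ⋃ k, ⋃ l, K k l with hN
  have hN0 : volume N = 0 := by
    have h1 : N ⊆ Dᶜ ∪ ⋃ k, (s ∩ t k) \ ⋃ l, K k l := by
      intro x hx
      by_cases hxD : x ∈ D
      · right
        obtain ⟨k, hk⟩ := mem_iUnion.1 (hst ⟨hx.1, hxD⟩)
        refine mem_iUnion.2 ⟨k, ⟨⟨hx.1, hxD⟩, hk⟩, fun hc => hx.2 (mem_iUnion.2 ⟨k, hc⟩)⟩
      · exact Or.inl hxD
    refine measure_mono_null h1 (measure_union_null hD0 (measure_iUnion_null fun k => ?_))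
    have h2 : ∀ l : ℕ, volume ((s ∩ t k) \ ⋃ l, K k l) ≤ ((l : ℝ≥0∞) + 1)⁻¹ := fun l =>
      (measure_mono (sdiff_subset_sdiff_right (subset_iUnion _ l))).trans (hKd k l).le
    have h3 : Tendsto (fun l : ℕ => ((l : ℝ≥0∞) + 1)⁻¹) atTop (𝓝 0) := by
      have := (tendsto_add_atTop_iff_nat 1).2 ENNReal.tendsto_inv_nat_nhds_zero
      simpa using this
    exact le_antisymm (ge_of_tendsto' h3 h2) bot_le
  -- enumeration of the compact pieces
  set K' : ℕ → Set (E n) := fun m => K (Nat.unpair m).1 (Nat.unpair m).2 with hK'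
  have hK'c : ∀ m, IsCompact (K' m) := fun m => hKc _ _
  have hK's₀ : ∀ m, K' m ⊆ s₀ := fun m => (hKs _ _).trans (inter_subset_left.trans inter_subset_left)
  have hK'A : ∀ m, K' m ⊆ A := fun m => (hK's₀ m).trans hs₀A
  set Z : ℕ → Set X := fun m => φ '' K' m with hZ
  have hZc : ∀ m, IsCompact (Z m) := fun m => (hK'c m).image_of_continuousOn (hφ.continuousOn.mono (hK'A m))
  have hZm : ∀ m, MeasurableSet (Z m) := fun m => (hZc m).measurableSet
  set Yd : ℕ → Set X := disjointed Z with hYd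
  have hYdm : ∀ m, MeasurableSet (Yd m) := fun m => MeasurableSet.disjointed hZm m
  have hYdZ : ∀ m, Yd m ⊆ Z m := fun m => disjointed_subset Z m
  have hYdisj : Pairwise (Function.onFun Disjoint Yd) := disjoint_disjointed Z
  set B : ℕ → Set (E n) := fun m => {x | x ∈ K' m ∧ φ x ∈ Yd m} with hB
  have hBm : ∀ m, MeasurableSet (B m) := by
    intro m
    have h1 : B m = K' m ∩ {x | x ∈ A ∧ φ x ∈ Yd m} := by
      ext x
      exact ⟨fun h => ⟨h.1, hK'A m h.1, h.2⟩, fun h => ⟨h.1, h.2.2⟩⟩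
    rw [h1]
    exact (hK'c m).measurableSet.inter (hmeas _ (hYdm m))
  have hφB : ∀ m, φ '' B m = Yd m := by
    intro m
    apply Subset.antisymm
    · rintro _ ⟨x, hx, rfl⟩; exact hx.2
    · intro y hy
      obtain ⟨x, hx, rfl⟩ := hYdZ m hy
      exact ⟨x, ⟨hx, hy⟩, rfl⟩
  have hBdisj : Pairwise (Function.onFun Disjoint B) := by
    intro m m' hmm
    rw [Function.onFun, Set.disjoint_left]
    intro x hx hx'
    exact Set.disjoint_left.1 (hYdisj hmm) hx.2 hx'.2
  have hpiece : ∀ m, ∑ j, (w j : ℝ≥0∞) * volume (P j '' (F '' Yd m)) ≤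
      (1 + η) * M * (1 / 2 ^ n) * μH[(n : ℝ)] (Yd m) + η * volume (B m) := by
    intro m
    have h1 : ApproximatesLinearOn (F ∘ φ) (G (Nat.unpair m).1) (B m) (δ (G (Nat.unpair m).1)) :=
      (happ (Nat.unpair m).1).mono_set fun x hx => hKs _ _ hx.1
    have h2 := hδ (G (Nat.unpair m).1) F hF φ (B m) h1
    rwa [hφB] at h2
  -- the cover of `Y`
  have hcov : Y ⊆ φ '' N ∪ ⋃ m, Yd m := by
    rw [← hφs₀]
    rintro _ ⟨x, hx, rfl⟩
    by_cases hxN : x ∈ N
    · exact Or.inl ⟨x, hxN, rfl⟩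
    · right
      rw [hYd, iUnion_disjointed]
      have h1 : x ∈ ⋃ k, ⋃ l, K k l := by
        by_contra hc
        exact hxN ⟨hx, hc⟩
      obtain ⟨k, hk⟩ := mem_iUnion.1 h1
      obtain ⟨l, hl⟩ := mem_iUnion.1 hk
      refine mem_iUnion.2 ⟨Nat.pair k l, x, ?_, rfl⟩
      rw [hK']
      simpa using hl
  have hnull : ∀ j, volume (P j '' (F '' (φ '' N))) = 0 := by
    intro j
    have h1 : LipschitzOnWith (‖P j‖₊ * 1 * L) (fun x => P j (F (φ x))) N :=
      ((lip_comp (P j) hF).comp_lipschitzOnWith (hφ.mono (sdiff_subset.trans hs₀A)))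
    have h2 := volume_image_zero h1 ((volume_zero_iff N).1 hN0)
    rwa [← image_comp, ← image_comp]
  have hvol : ∀ j, volume (P j '' (F '' Y)) ≤ ∑' m, volume (P j '' (F '' Yd m)) := by
    intro j
    calc volume (P j '' (F '' Y)) ≤ volume (P j '' (F '' (φ '' N)) ∪ ⋃ m, P j '' (F '' Yd m)) := by
          apply measure_mono
          rw [← image_iUnion, ← image_iUnion, ← image_union, ← image_union]
          exact image_mono (image_mono hcov)
      _ ≤ volume (P j '' (F '' (φ '' N))) + volume (⋃ m, P j '' (F '' Yd m)) := measure_union_le _ _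
      _ ≤ 0 + ∑' m, volume (P j '' (F '' Yd m)) := add_le_add (hnull j).le (measure_iUnion_le _)
      _ = _ := zero_add _
  have hYU : ⋃ m, Yd m ⊆ Y := by
    rw [hYd, iUnion_disjointed]
    refine iUnion_subset fun m => ?_
    rw [← hφs₀]
    exact image_mono (hK's₀ m)
  calc ∑ j, (w j : ℝ≥0∞) * volume (P j '' (F '' Y))
      ≤ ∑ j, (w j : ℝ≥0∞) * ∑' m, volume (P j '' (F '' Yd m)) := Finset.sum_le_sum fun j _ => by gcongr; exact hvol j
    _ = ∑' m, ∑ j, (w j : ℝ≥0∞) * volume (P j '' (F '' Yd m)) := by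
        rw [Summable.tsum_finsetSum (fun j _ => ENNReal.summable)]
        exact Finset.sum_congr rfl fun j _ => by rw [ENNReal.tsum_mul_left]
    _ ≤ ∑' m, ((1 + η) * M * (1 / 2 ^ n) * μH[(n : ℝ)] (Yd m) + η * volume (B m)) := ENNReal.tsum_le_tsum hpiece
    _ = (1 + η) * M * (1 / 2 ^ n) * μH[(n : ℝ)] (⋃ m, Yd m) + η * volume (⋃ m, B m) := by
        rw [ENNReal.tsum_add, ENNReal.tsum_mul_left, ENNReal.tsum_mul_left, measure_iUnion hYdisj hYdm,
          measure_iUnion hBdisj hBm]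
    _ ≤ (1 + η) * M * (1 / 2 ^ n) * μH[(n : ℝ)] Y + η * volume A := by
        gcongr
        exact iUnion_subset fun m x hx => hK'A m hx.1

theorem comparison {n : ℕ} (hn : 0 < n) {ι J : Type*} [Fintype ι] [Fintype J] (w : J → ℝ≥0)
    (P : J → (ι → ℝ) →L[ℝ] E n) (M : ℝ≥0) (H : DetBound w P M)
    {X : Type} [MetricSpace X] [MeasurableSpace X] [BorelSpace X] (F : X → (ι → ℝ)) (hF : LipschitzWith 1 F)
    (hX : CountablyRectifiable n X) :
    ∑ j, (w j : ℝ≥0∞) * volume (P j '' (range F)) ≤ M * (1 / 2 ^ n) * μH[(n : ℝ)] (univ : Set X) := by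
  classical
  obtain ⟨A, φ, L, hA, hφ, hnull⟩ := hX
  set Z : ℕ → Set X := fun i => φ i '' A i with hZ
  have hZm : ∀ m, MeasurableSet (Z m) := fun m =>
    ((hA m).image_of_continuousOn (hφ m).continuousOn).measurableSet
  set Y : ℕ → Set X := disjointed Z with hY
  have hYm : ∀ m, MeasurableSet (Y m) := fun m => MeasurableSet.disjointed hZm m
  have hYdisj : Pairwise (Function.onFun Disjoint Y) := disjoint_disjointed Z
  have h0 : ∀ j, volume (P j '' (F '' (⋃ i, Z i)ᶜ)) = 0 := by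
    intro j
    have h1 := volume_image_zero ((lip_comp (P j) hF).lipschitzOnWith (s := (⋃ i, Z i)ᶜ)) hnull
    rwa [← image_comp]
  have hvol : ∀ j, volume (P j '' (range F)) ≤ ∑' m, volume (P j '' (F '' Y m)) := by
    intro j
    calc volume (P j '' (range F)) ≤ volume (P j '' (F '' (⋃ i, Z i)ᶜ) ∪ ⋃ m, P j '' (F '' Y m)) := by
          apply measure_mono
          rw [← image_iUnion, ← image_iUnion, ← image_union, ← image_union, hY, iUnion_disjointed, ← image_univ]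
          exact image_mono (image_mono (by rw [compl_union_self]))
      _ ≤ volume (P j '' (F '' (⋃ i, Z i)ᶜ)) + volume (⋃ m, P j '' (F '' Y m)) := measure_union_le _ _
      _ ≤ 0 + ∑' m, volume (P j '' (F '' Y m)) := add_le_add (h0 j).le (measure_iUnion_le _)
      _ = _ := zero_add _
  calc ∑ j, (w j : ℝ≥0∞) * volume (P j '' (range F))
      ≤ ∑ j, (w j : ℝ≥0∞) * ∑' m, volume (P j '' (F '' Y m)) := Finset.sum_le_sum fun j _ => by gcongr; exact hvol j
    _ = ∑' m, ∑ j, (w j : ℝ≥0∞) * volume (P j '' (F '' Y m)) := by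
        rw [Summable.tsum_finsetSum (fun j _ => ENNReal.summable)]
        exact Finset.sum_congr rfl fun j _ => by rw [ENNReal.tsum_mul_left]
    _ ≤ ∑' m, M * (1 / 2 ^ n) * μH[(n : ℝ)] (Y m) := ENNReal.tsum_le_tsum fun m =>
        chart hn w P M H F hF (φ m) (A m) (hA m) (L m) (hφ m) (Y m) (hYm m) (disjointed_subset Z m)
    _ = M * (1 / 2 ^ n) * μH[(n : ℝ)] (⋃ m, Y m) := by
        rw [ENNReal.tsum_mul_left, measure_iUnion hYdisj hYm]
    _ ≤ _ := by
        gcongr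
        exact subset_univ _

end Pool.Agent.Helper924_BV
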