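import Pool.Agent.Helper924_BV.Chart
import Pool.Agent.Helper133.Brouwer

open MeasureTheory Metric Set Filter
open scoped ENNReal NNReal Pointwise Topology

namespace Pool.Agent.Helper924_BV

/-- A continuous self-map of Euclidean space defined on the unit ball which is the identity on the unit sphere covers the ball. -/
theorem cover_ball {n : ℕ} (p : E n → E n) (hp : ContinuousOn p (closedBall 0 1))
    (hid : ∀ x, ‖x‖ = 1 → p x = x) : closedBall 0 1 ⊆ p '' closedBall 0 1 := by
  intro y hy
  rw [mem_closedBall_zero_iff] at hy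
  rcases hy.lt_or_eq with hy1 | hy1
  swap
  · exact ⟨y, mem_closedBall_zero_iff.2 hy1.le, hid y hy1⟩
  classical
  -- the extended map
  let f : E n → E n := fun x => if ‖x‖ ≤ 1 then p x - y else x - (max 0 (2 - ‖x‖)) • y
  have hf : Continuous f := by
    refine continuous_if_le continuous_norm continuous_const ?_ ?_ ?_
    · have : {x : E n | ‖x‖ ≤ 1} = closedBall 0 1 := by
        ext x; simp
      rw [this]
      exact hp.sub continuousOn_const
    · exact (continuous_id.sub ((continuous_const.max (continuous_const.sub continuous_norm)).smul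
        continuous_const)).continuousOn
    · intro x hx
      rw [hid x hx, hx]
      norm_num
  obtain ⟨x, hx⟩ := Pool.Agent.Helper133.Brouwer.exists_zero n f hf 2 (by norm_num) (by
    intro x hx
    have h1 : ¬ ‖x‖ ≤ 1 := by linarith
    simp only [f, h1, if_false]
    rw [max_eq_left (by linarith), zero_smul, sub_zero])
  by_cases hx1 : ‖x‖ ≤ 1
  · refine ⟨x, mem_closedBall_zero_iff.2 hx1, ?_⟩
    simp only [f, hx1, if_true] at hx
    exact sub_eq_zero.1 hx
  · exfalso
    simp only [f, hx1, if_false] at hx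
    rw [not_le] at hx1
    have h1 : ‖x‖ = ‖(max 0 (2 - ‖x‖)) • y‖ := congrArg norm (sub_eq_zero.1 hx)
    rw [norm_smul, Real.norm_of_nonneg (le_max_left _ _)] at h1
    have h2 : max 0 (2 - ‖x‖) ≤ 1 := max_le (by norm_num) (by linarith)
    have h3 : max 0 (2 - ‖x‖) * ‖y‖ ≤ 1 * ‖y‖ := mul_le_mul_of_nonneg_right h2 (norm_nonneg _)
    linarith

/-- The volume bound: linear labels `V`, a family `P j` with the determinant inequality, and a metric on the ball which
dominates the Euclidean distance on the boundary sphere. -/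
theorem master {n : ℕ} (hn : 0 < n) {ι J : Type*} [Fintype ι] [Fintype J] (w : J → ℝ≥0)
    (P : J → (ι → ℝ) →L[ℝ] E n) (M : ℝ≥0) (H : DetBound w P M)
    (V : E n →L[ℝ] (ι → ℝ)) (hV : ∀ u, ‖V u‖ ≤ ‖u‖)
    {X : Type} [MetricSpace X] [MeasurableSpace X] [BorelSpace X] (h : closedBall (0 : E n) 1 ≃ₜ X)
    (hb : ∀ x y : closedBall (0 : E n) 1, ‖(x : E n)‖ = 1 → ‖(y : E n)‖ = 1 → dist (x : E n) y ≤ dist (h x) (h y))
    (hX : CountablyRectifiable n X) :
    (∑ j, (w j : ℝ≥0∞) * ENNReal.ofReal |((P j).comp V).det|) * volume (closedBall (0 : E n) 1) ≤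
      M * (1 / 2 ^ n) * μH[(n : ℝ)] (univ : Set X) := by
  classical
  -- the Lipschitz extension of the labels
  set S : Set X := {z | ‖(h.symm z : E n)‖ = 1} with hS
  have h1 : LipschitzOnWith 1 (fun z => V (h.symm z : E n)) S := by
    refine LipschitzOnWith.of_dist_le_mul fun z hz z' hz' => ?_
    rw [NNReal.coe_one, one_mul, dist_eq_norm, ← map_sub]
    refine (hV _).trans ?_
    rw [← dist_eq_norm]
    have := hb (h.symm z) (h.symm z') hz hz'
    simpa using this
  obtain ⟨F, hF, hFeq⟩ := h1.extend_pi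
  refine le_trans ?_ (comparison hn w P M H F hF hX)
  rw [Finset.sum_mul]
  refine Finset.sum_le_sum fun j _ => ?_
  rw [mul_assoc]
  gcongr
  by_cases hdet : ((P j).comp V).det = 0
  · simp [hdet]
  set Λ : E n →L[ℝ] E n := (P j).comp V with hΛ
  let e : E n ≃L[ℝ] E n := ContinuousLinearEquiv.ofBijective Λ (by
      rw [LinearMap.ker_eq_bot]
      exact (LinearMap.equivOfDetNeZero (Λ : E n →ₗ[ℝ] E n) hdet).injective) (by
      rw [LinearMap.range_eq_top]
      exact (LinearMap.equivOfDetNeZero (Λ : E n →ₗ[ℝ] E n) hdet).surjective)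
  have he : ∀ u, e u = Λ u := fun u => rfl
  -- the map to which the covering lemma is applied
  let q : closedBall (0 : E n) 1 → E n := fun x => e.symm (P j (F (h x)))
  have hq : Continuous q := e.symm.continuous.comp ((P j).continuous.comp (hF.continuous.comp h.continuous))
  let p : E n → E n := fun x => if hx : x ∈ closedBall (0 : E n) 1 then q ⟨x, hx⟩ else 0
  have hp : ContinuousOn p (closedBall 0 1) := by
    rw [continuousOn_iff_continuous_domRestrict]
    convert hq using 1
    funext x
    show p x = q x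
    simp only [p, x.2, dif_pos]
  have hid : ∀ x, ‖x‖ = 1 → p x = x := by
    intro x hx
    have hx' : x ∈ closedBall (0 : E n) 1 := by simp [hx]
    have h2 : F (h ⟨x, hx'⟩) = V x := by
      have := hFeq (x := h ⟨x, hx'⟩) (by simp [hS, hx])
      rw [← this]
      simp
    simp only [p, hx', dif_pos, q, h2]
    rw [ContinuousLinearEquiv.symm_apply_eq, he]
    rfl
  have hcov := cover_ball p hp hid
  have h3 : Λ '' closedBall 0 1 ⊆ P j '' (range F) := by
    rintro _ ⟨y, hy, rfl⟩
    obtain ⟨x, hx, hxy⟩ := hcov hy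
    refine ⟨F (h ⟨x, hx⟩), mem_range_self _, ?_⟩
    simp only [p, hx, dif_pos, q] at hxy
    rw [← hxy, ← he]
    simp
  calc ENNReal.ofReal |Λ.det| * volume (closedBall (0 : E n) 1) = volume (Λ '' closedBall 0 1) :=
        (Measure.addHaar_image_continuousLinearMap _ _ _).symm
    _ ≤ _ := measure_mono h3

end Pool.Agent.Helper924_BV
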