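import Mathlib

/-! Definitions for MP_8115c2_gt (minimal Hausdorff volume of balls dominating Euclidean boundary distances). -/

open MeasureTheory Metric Set
open scoped ENNReal NNReal

namespace Pool.Agent.Helper924_BV

/-- Euclidean `n`-space. -/
abbrev E (n : ℕ) : Type := EuclideanSpace ℝ (Fin n)

/-- the sign of a boolean -/
def sg (b : Bool) : ℝ := if b then 1 else -1

/-- A metric space `X` is countably `n`-rectifiable: up to a set of `n`-dimensional Hausdorff measure zero it is covered by
countably many Lipschitz images of compact subsets of `ℝⁿ`. -/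
def CountablyRectifiable (n : ℕ) (X : Type*) [MetricSpace X] [MeasurableSpace X] [BorelSpace X] : Prop :=
  ∃ (A : ℕ → Set (E n)) (φ : ℕ → E n → X) (L : ℕ → ℝ≥0),
    (∀ i, IsCompact (A i)) ∧ (∀ i, LipschitzOnWith (L i) (φ i) (A i)) ∧
    μH[(n : ℝ)] (⋃ i, φ i '' A i)ᶜ = 0

end Pool.Agent.Helper924_BV
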