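import Pool.Agent.Helper924_BV.Cover
import Pool.Agent.Helper924_BF.BesFed
import Pool.Agent.Helper924_BF.Decomp

/-! The volume bound for all metrics (no rectifiability assumption), by the Besicovitch-Federer projection theorem. -/

open MeasureTheory Metric Set Filter
open scoped ENNReal NNReal Pointwise Topology

namespace Pool.Agent.Helper924_BV

open Pool.Agent.Helper924_BF

/-- the comparison on a measurable subset of a space covered by countably many charts -/
theorem comparison_on {n : ℕ} (hn : 0 < n) {ι J : Type*} [Fintype ι] [Fintype J] (w : J → ℝ≥0)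
    (P : J → (ι → ℝ) →L[ℝ] E n) (M : ℝ≥0) (H : DetBound w P M)
    {X : Type} [MetricSpace X] [MeasurableSpace X] [BorelSpace X] (F : X → (ι → ℝ)) (hF : LipschitzWith 1 F)
    (A : ℕ → Set (E n)) (φ : ℕ → E n → X) (L : ℕ → ℝ≥0) (hA : ∀ i, IsCompact (A i))
    (hφ : ∀ i, LipschitzOnWith (L i) (φ i) (A i)) (W : Set X) (hW : MeasurableSet W) (hWA : W ⊆ ⋃ i, φ i '' A i) :
    ∑ j, (w j : ℝ≥0∞) * volume (P j '' (F '' W)) ≤ M * (1 / 2 ^ n) * μH[(n : ℝ)] W := by
  classical
  set Z : ℕ → Set X := fun i => φ i '' A i with hZ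
  have hZm : ∀ m, MeasurableSet (Z m) := fun m =>
    ((hA m).image_of_continuousOn (hφ m).continuousOn).measurableSet
  set Y : ℕ → Set X := fun m => W ∩ disjointed Z m with hY
  have hYm : ∀ m, MeasurableSet (Y m) := fun m => hW.inter (MeasurableSet.disjointed hZm m)
  have hYdisj : Pairwise (Function.onFun Disjoint Y) := fun a b hab =>
    (disjoint_disjointed Z hab).mono inter_subset_right inter_subset_right
  have hYU : ⋃ m, Y m = W := by
    rw [hY, ← inter_iUnion, iUnion_disjointed]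
    exact inter_eq_left.2 hWA
  have hvol : ∀ j, volume (P j '' (F '' W)) ≤ ∑' m, volume (P j '' (F '' Y m)) := by
    intro j
    calc volume (P j '' (F '' W)) = volume (⋃ m, P j '' (F '' Y m)) := by
          rw [← image_iUnion, ← image_iUnion, hYU]
      _ ≤ _ := measure_iUnion_le _
  calc ∑ j, (w j : ℝ≥0∞) * volume (P j '' (F '' W))
      ≤ ∑ j, (w j : ℝ≥0∞) * ∑' m, volume (P j '' (F '' Y m)) := Finset.sum_le_sum fun j _ => by gcongr; exact hvol j
    _ = ∑' m, ∑ j, (w j : ℝ≥0∞) * volume (P j '' (F '' Y m)) := by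
        rw [Summable.tsum_finsetSum (fun j _ => ENNReal.summable)]
        exact Finset.sum_congr rfl fun j _ => by rw [ENNReal.tsum_mul_left]
    _ ≤ ∑' m, M * (1 / 2 ^ n) * μH[(n : ℝ)] (Y m) := ENNReal.tsum_le_tsum fun m =>
        chart hn w P M H F hF (φ m) (A m) (hA m) (L m) (hφ m) (Y m) (hYm m) (inter_subset_right.trans (disjointed_subset Z m))
    _ = M * (1 / 2 ^ n) * μH[(n : ℝ)] W := by
        rw [ENNReal.tsum_mul_left, ← measure_iUnion hYdisj hYm, hYU]

/-- the covering argument -/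
theorem cover_vol {n : ℕ} {ι : Type*} [Fintype ι] (P : (ι → ℝ) →L[ℝ] E n) (V : E n →L[ℝ] (ι → ℝ))
    (f : closedBall (0 : E n) 1 → (ι → ℝ)) (hf : Continuous f)
    (hV : ∀ x : closedBall (0 : E n) 1, ‖(x : E n)‖ = 1 → f x = V x) :
    ENNReal.ofReal |(P.comp V).det| * volume (closedBall (0 : E n) 1) ≤ volume (P '' (range f)) := by
  classical
  by_cases hdet : (P.comp V).det = 0
  · simp [hdet]
  set Λ : E n →L[ℝ] E n := P.comp V with hΛ
  let e : E n ≃L[ℝ] E n := ContinuousLinearEquiv.ofBijective Λ (by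
      rw [LinearMap.ker_eq_bot]
      exact (LinearMap.equivOfDetNeZero (Λ : E n →ₗ[ℝ] E n) hdet).injective) (by
      rw [LinearMap.range_eq_top]
      exact (LinearMap.equivOfDetNeZero (Λ : E n →ₗ[ℝ] E n) hdet).surjective)
  have he : ∀ u, e u = Λ u := fun u => rfl
  -- the map to which the covering lemma is applied
  let q : closedBall (0 : E n) 1 → E n := fun x => e.symm (P (f x))
  have hq : Continuous q := e.symm.continuous.comp (P.continuous.comp hf)
  let p : E n → E n := fun x => if hx : x ∈ closedBall (0 : E n) 1 then q ⟨x, hx⟩ else 0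
  have hp : ContinuousOn p (closedBall 0 1) := by
    rw [continuousOn_iff_continuous_domRestrict]
    convert hq using 1
    funext x
    show p x = q x
    simp only [p, x.2, dif_pos]
  have hid : ∀ x, ‖x‖ = 1 → p x = x := by
    intro x hx
    have hx' : x ∈ closedBall (0 : E n) 1 := by simp [hx]
    have h2 : f ⟨x, hx'⟩ = V x := hV ⟨x, hx'⟩ hx
    simp only [p, hx', dif_pos, q, h2]
    rw [ContinuousLinearEquiv.symm_apply_eq, he]
    rfl
  have hcov := cover_ball p hp hid
  have h3 : Λ '' closedBall 0 1 ⊆ P '' (range f) := by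
    rintro _ ⟨y, hy, rfl⟩
    obtain ⟨x, hx, hxy⟩ := hcov hy
    refine ⟨f ⟨x, hx⟩, mem_range_self _, ?_⟩
    simp only [p, hx, dif_pos, q] at hxy
    rw [← hxy, ← he]
    simp
  calc ENNReal.ofReal |Λ.det| * volume (closedBall (0 : E n) 1) = volume (Λ '' closedBall 0 1) :=
        (Measure.addHaar_image_continuousLinearMap _ _ _).symm
    _ ≤ _ := measure_mono h3

/-- the determinant inequality and composition with a linear map -/
theorem DetBound.comp {n : ℕ} {ι J : Type*} [Fintype ι] [Fintype J] {w : J → ℝ≥0}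
    {P : J → (ι → ℝ) →L[ℝ] E n} {M : ℝ≥0} (H : DetBound w P M) (Q : (ι → ℝ) →L[ℝ] (ι → ℝ)) :
    DetBound w (fun j => (P j).comp Q) (‖Q‖₊ ^ n * M) := by
  intro G
  have h1 := H (Q.comp G)
  have h2 : ∀ j, ((P j).comp Q).comp G = (P j).comp (Q.comp G) := fun j => rfl
  simp only [h2]
  rcases eq_or_ne Q 0 with hQ | hQ
  · subst hQ
    rcases Nat.eq_zero_or_pos n with hn | hn
    · subst hn
      simp only [pow_zero, one_mul]
      refine le_trans ?_ h1
      gcongr
      simp
    · have h3 : ∀ j, ((P j).comp ((0 : (ι → ℝ) →L[ℝ] (ι → ℝ)).comp G)).det = 0 := by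
        intro j
        have h6 : (P j).comp ((0 : (ι → ℝ) →L[ℝ] (ι → ℝ)).comp G) = 0 := by
          ext1 u
          simp
        rw [h6]
        simp only [ContinuousLinearMap.det, ContinuousLinearMap.toLinearMap_zero]
        rw [LinearMap.det_zero, finrank_euclideanSpace_fin, zero_pow hn.ne']
      rw [Finset.sum_eq_zero (fun j _ => by rw [h3 j, abs_zero, ENNReal.ofReal_zero, mul_zero]), zero_mul]
      exact bot_le
  · have hQ' : 0 < ‖Q‖ := norm_pos_iff.2 hQ
    have h4 : {u : E n | ‖G u‖ ≤ 1} ⊆ ‖Q‖ • {u : E n | ‖(Q.comp G) u‖ ≤ 1} := by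
      intro u hu
      rw [mem_smul_set_iff_inv_smul_mem₀ hQ'.ne']
      simp only [mem_setOf_eq, map_smul, norm_smul, norm_inv, norm_norm] at hu ⊢
      rw [inv_mul_le_iff₀ hQ', mul_one]
      calc ‖(Q.comp G) u‖ ≤ ‖Q‖ * ‖G u‖ := Q.le_opNorm _
        _ ≤ ‖Q‖ * 1 := by gcongr
        _ = ‖Q‖ := mul_one _
    have h5 : volume (‖Q‖ • {u : E n | ‖(Q.comp G) u‖ ≤ 1}) =
        ((‖Q‖₊ ^ n : ℝ≥0) : ℝ≥0∞) * volume {u : E n | ‖(Q.comp G) u‖ ≤ 1} := by
      rw [Measure.addHaar_smul, finrank_euclideanSpace_fin, abs_of_nonneg (by positivity)]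
      congr 1
      rw [ENNReal.ofReal, ← coe_nnnorm, ← NNReal.coe_pow, Real.toNNReal_coe]
    calc (∑ j, (w j : ℝ≥0∞) * ENNReal.ofReal |((P j).comp (Q.comp G)).det|) * volume {u : E n | ‖G u‖ ≤ 1}
        ≤ (∑ j, (w j : ℝ≥0∞) * ENNReal.ofReal |((P j).comp (Q.comp G)).det|) *
          (((‖Q‖₊ ^ n : ℝ≥0) : ℝ≥0∞) * volume {u : E n | ‖(Q.comp G) u‖ ≤ 1}) := by
          gcongr
          rw [← h5]
          exact measure_mono h4
      _ = ((‖Q‖₊ ^ n : ℝ≥0) : ℝ≥0∞) * ((∑ j, (w j : ℝ≥0∞) * ENNReal.ofReal |((P j).comp (Q.comp G)).det|) *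
          volume {u : E n | ‖(Q.comp G) u‖ ≤ 1}) := by ring
      _ ≤ ((‖Q‖₊ ^ n : ℝ≥0) : ℝ≥0∞) * M := by gcongr
      _ = _ := by push_cast; ring

/-- The linear self-map of `ℝ^ι` with columns `Q i`. -/
noncomputable def colMap {ι : Type} [Fintype ι] : (ι → ι → ℝ) →ₗ[ℝ] ((ι → ℝ) →L[ℝ] (ι → ℝ)) where
  toFun Q := ∑ i, (ContinuousLinearMap.proj (R := ℝ) (φ := fun _ : ι => ℝ) i).smulRight (Q i)
  map_add' Q Q' := by
    ext x
    simp [ContinuousLinearMap.sum_apply, smul_add, Finset.sum_add_distrib, mul_add]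
  map_smul' c Q := by
    ext x
    simp [ContinuousLinearMap.sum_apply, Finset.mul_sum, mul_left_comm]

lemma colMap_apply {ι : Type} [Fintype ι] (Q : ι → ι → ℝ) (x : ι → ℝ) : colMap Q x = ∑ i, x i • Q i := by
  simp [colMap, ContinuousLinearMap.sum_apply]

lemma colMap_id {ι : Type} [Fintype ι] [DecidableEq ι] :
    colMap (fun i : ι => Pi.single i (1 : ℝ)) = ContinuousLinearMap.id ℝ (ι → ℝ) := by
  ext x j
  rw [colMap_apply]
  simp [Finset.sum_apply, Pi.single_apply]

lemma colMap_continuous {ι : Type} [Fintype ι] :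
    Continuous (colMap : (ι → ι → ℝ) → ((ι → ℝ) →L[ℝ] (ι → ℝ))) :=
  LinearMap.continuous_of_finiteDimensional _

/-- A compact purely unrectifiable subset of finite measure has null image under almost all compositions `P ∘ Q`. -/
theorem ae_null_compact {ι : Type} [Fintype ι] {n : ℕ} (hn : 0 < n) (P : (ι → ℝ) →L[ℝ] E n) (K : Set (ι → ℝ))
    (hK : IsCompact K) (hfin : μH[(n : ℝ)] K ≠ ∞) (hPU : PU n K) :
    ∀ᵐ Q : ι → ι → ℝ, volume (P '' (colMap Q '' K)) = 0 := by
  classical
  by_cases hP : Function.Surjective P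
  · set e : E n ≃L[ℝ] (Fin n → ℝ) := EuclideanSpace.equiv (Fin n) ℝ with he
    let T : (ι → ι → ℝ) →ₗ[ℝ] (ι → Fin n → ℝ) :=
      LinearMap.pi fun i => ((e : E n →L[ℝ] (Fin n → ℝ)).comp P : (ι → ℝ) →ₗ[ℝ] (Fin n → ℝ)).comp (LinearMap.proj i)
    have hT : Function.Surjective T := by
      intro L
      choose q hq using fun i => hP (e.symm (L i))
      refine ⟨q, ?_⟩
      funext i
      show e (P (q i)) = L i
      rw [hq, ContinuousLinearEquiv.apply_symm_apply]
    have h1 := besicovitch_federer hn K hK hfin hPU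
    set N : Set (ι → Fin n → ℝ) := toMeasurable volume {L | ¬ volume (lin L '' K) = 0} with hN
    have hN0 : volume N = 0 := by
      rw [hN, measure_toMeasurable]
      exact h1
    have h2 : ∀ᵐ L : ι → Fin n → ℝ, L ∈ Nᶜ := by
      rw [ae_iff]
      simpa using hN0
    have h3 : ∀ᵐ Q : ι → ι → ℝ, T Q ∈ Nᶜ :=
      (ae_comp_linearMap_mem_iff T volume volume hT (measurableSet_toMeasurable _ _).compl).2 h2
    refine h3.mono fun Q hQ => ?_
    have h4 : volume (lin (T Q) '' K) = 0 := by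
      by_contra hc
      exact hQ (subset_toMeasurable _ _ hc)
    have h5 : lin (T Q) '' K = e '' (P '' (colMap Q '' K)) := by
      rw [← image_comp, ← image_comp]
      apply image_congr
      intro x _
      simp only [Function.comp_apply, colMap_apply, map_sum, map_smul, lin]
      rfl
    rw [h5] at h4
    have h6 : volume (e ⁻¹' (e '' (P '' (colMap Q '' K)))) = 0 := by
      have h7 := (EuclideanSpace.volume_preserving_symm_measurableEquiv_toLp (Fin n)).measure_preimage_equiv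
        (e '' (P '' (colMap Q '' K)))
      rw [h4] at h7
      exact h7
    rwa [preimage_image_eq _ e.injective] at h6
  · refine ae_of_all _ fun Q => ?_
    have h1 : (LinearMap.range (P : (ι → ℝ) →ₗ[ℝ] E n)) ≠ ⊤ := by
      intro hc
      exact hP (LinearMap.range_eq_top.1 hc)
    refine measure_mono_null ?_ (Measure.addHaar_submodule volume _ h1)
    rintro _ ⟨y, -, rfl⟩
    exact ⟨y, rfl⟩

/-- A measurable purely unrectifiable subset of finite measure has null image under almost all compositions `P ∘ Q`. -/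
theorem ae_null {ι : Type} [Fintype ι] {n : ℕ} (hn : 0 < n) (P : (ι → ℝ) →L[ℝ] E n) (U : Set (ι → ℝ))
    (hU : MeasurableSet U) (hfin : μH[(n : ℝ)] U ≠ ∞) (hPU : PU n U) :
    ∀ᵐ Q : ι → ι → ℝ, volume (P '' (colMap Q '' U)) = 0 := by
  set μ : Measure (ι → ℝ) := μH[(n : ℝ)].restrict U with hμ
  have hμf : IsFiniteMeasure μ := ⟨by rw [hμ, Measure.restrict_apply_univ]; exact hfin.lt_top⟩
  have hex : ∀ l : ℕ, ∃ K ⊆ U, IsCompact K ∧ μ (U \ K) < ((l : ℝ≥0∞) + 1)⁻¹ := fun l =>
    hU.exists_isCompact_sdiff_lt (measure_ne_top μ U) (by simp)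
  choose K hKU hKc hKd using hex
  have h0 : μH[(n : ℝ)] (U \ ⋃ l, K l) = 0 := by
    have h1 : μ (U \ ⋃ l, K l) = 0 := by
      have h2 : ∀ l : ℕ, μ (U \ ⋃ l, K l) ≤ ((l : ℝ≥0∞) + 1)⁻¹ := fun l =>
        (measure_mono (sdiff_subset_sdiff_right (subset_iUnion _ l))).trans (hKd l).le
      have h3 : Tendsto (fun l : ℕ => ((l : ℝ≥0∞) + 1)⁻¹) atTop (𝓝 0) := by
        have := (tendsto_add_atTop_iff_nat 1).2 ENNReal.tendsto_inv_nat_nhds_zero
        simpa using this
      exact le_antisymm (ge_of_tendsto' h3 h2) bot_le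
    rw [hμ, Measure.restrict_apply' hU] at h1
    rwa [inter_eq_left.2 sdiff_subset] at h1
  have h4 : ∀ l, ∀ᵐ Q : ι → ι → ℝ, volume (P '' (colMap Q '' K l)) = 0 := fun l =>
    ae_null_compact hn P (K l) (hKc l) (ne_top_of_le_ne_top hfin (measure_mono (hKU l)))
      (fun B φ C hφ => measure_mono_null (inter_subset_inter_left _ (hKU l)) (hPU B φ C hφ))
  filter_upwards [ae_all_iff.2 h4] with Q hQ
  have h5 : volume (P '' (colMap Q '' (U \ ⋃ l, K l))) = 0 := by
    rw [← image_comp]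
    exact volume_image_zero ((P.lipschitz.comp (colMap Q).lipschitz).lipschitzOnWith) h0
  have h6 : P '' (colMap Q '' U) ⊆ P '' (colMap Q '' (U \ ⋃ l, K l)) ∪ ⋃ l, P '' (colMap Q '' K l) := by
    rw [← image_iUnion, ← image_iUnion, ← image_union, ← image_union]
    refine image_mono (image_mono fun x hx => ?_)
    by_cases h : x ∈ ⋃ l, K l
    · exact Or.inr h
    · exact Or.inl ⟨hx, h⟩
  exact measure_mono_null h6 (measure_union_null h5 (measure_iUnion_null hQ))

/-- The volume bound for all metrics: linear labels `V`, a family `P j` with the determinant inequality, and a metric on the ball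
which dominates the Euclidean distance on the boundary sphere. -/
theorem master_all {n : ℕ} (hn : 0 < n) {ι J : Type} [Fintype ι] [Fintype J] (w : J → ℝ≥0)
    (P : J → (ι → ℝ) →L[ℝ] E n) (M : ℝ≥0) (H : DetBound w P M)
    (V : E n →L[ℝ] (ι → ℝ)) (hV : ∀ u, ‖V u‖ ≤ ‖u‖)
    {X : Type} [MetricSpace X] [MeasurableSpace X] [BorelSpace X] (h : closedBall (0 : E n) 1 ≃ₜ X)
    (hb : ∀ x y : closedBall (0 : E n) 1, ‖(x : E n)‖ = 1 → ‖(y : E n)‖ = 1 → dist (x : E n) y ≤ dist (h x) (h y)) :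
    (∑ j, (w j : ℝ≥0∞) * ENNReal.ofReal |((P j).comp V).det|) * volume (closedBall (0 : E n) 1) ≤
      M * (1 / 2 ^ n) * μH[(n : ℝ)] (univ : Set X) := by
  classical
  set ω : ℝ≥0∞ := volume (closedBall (0 : E n) 1) with hω
  have hωt : ω ≠ ∞ := measure_closedBall_lt_top.ne
  by_cases hM : M = 0
  · -- the determinant inequality for `V` itself
    have h1 := H V
    have h2 : ω ≤ volume {u : E n | ‖V u‖ ≤ 1} := by
      apply measure_mono
      intro u hu
      exact (hV u).trans (mem_closedBall_zero_iff.1 hu)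
    subst hM
    calc (∑ j, (w j : ℝ≥0∞) * ENNReal.ofReal |((P j).comp V).det|) * ω
        ≤ (∑ j, (w j : ℝ≥0∞) * ENNReal.ofReal |((P j).comp V).det|) * volume {u : E n | ‖V u‖ ≤ 1} := by gcongr
      _ ≤ ((0 : ℝ≥0) : ℝ≥0∞) := h1
      _ ≤ _ := by simp
  by_cases hX : μH[(n : ℝ)] (univ : Set X) = ∞
  · rw [hX, ENNReal.mul_top]
    · exact le_top
    · have : (M : ℝ≥0∞) ≠ 0 := by exact_mod_cast hM
      simp [this]
  have : CompactSpace X := h.compactSpace
  -- the Lipschitz extension of the labels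
  set S₀ : Set X := {z | ‖(h.symm z : E n)‖ = 1} with hS₀
  have h1 : LipschitzOnWith 1 (fun z => V (h.symm z : E n)) S₀ := by
    refine LipschitzOnWith.of_dist_le_mul fun z hz z' hz' => ?_
    rw [NNReal.coe_one, one_mul, dist_eq_norm, ← map_sub]
    refine (hV _).trans ?_
    rw [← dist_eq_norm]
    have := hb (h.symm z) (h.symm z') hz hz'
    simpa using this
  obtain ⟨F, hF, hFeq⟩ := h1.extend_pi
  set S : Set (ι → ℝ) := range F with hS
  have hSc : IsCompact S := isCompact_range hF.continuous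
  have hSμ : μH[(n : ℝ)] S ≤ μH[(n : ℝ)] (univ : Set X) := by
    have := hF.hausdorffMeasure_image_le (d := n) (by positivity) (univ : Set X)
    rwa [image_univ, ENNReal.coe_one, ENNReal.one_rpow, one_mul] at this
  have hSt : μH[(n : ℝ)] S ≠ ∞ := ne_top_of_le_ne_top hX hSμ
  obtain ⟨φ, C, hφ, hRm, hU⟩ := decomp (n := n) S hSc.measurableSet hSt
  set R : Set (ι → ℝ) := ⋃ i, range (φ i) with hR
  have hUm : MeasurableSet (S \ R) := hSc.measurableSet.diff hRm
  have hUt : μH[(n : ℝ)] (S \ R) ≠ ∞ := ne_top_of_le_ne_top hSt (measure_mono sdiff_subset)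
  -- the set of good perturbations of the identity
  have hae : ∀ᵐ Q : ι → ι → ℝ, ∀ j, volume (P j '' (colMap Q '' (S \ R))) = 0 :=
    ae_all_iff.2 fun j => ae_null hn (P j) (S \ R) hUm hUt hU
  -- the inequality for good `Q`
  have hgood : ∀ Q : ι → ι → ℝ, (∀ j, volume (P j '' (colMap Q '' (S \ R))) = 0) →
      (∑ j, (w j : ℝ≥0∞) * ENNReal.ofReal |(((P j).comp (colMap Q)).comp V).det|) * ω ≤
        ((‖colMap Q‖₊ ^ n * M : ℝ≥0) : ℝ≥0∞) * (1 / 2 ^ n) * μH[(n : ℝ)] (univ : Set X) := by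
    intro Q hQ
    have h2 : ∀ j, ENNReal.ofReal |(((P j).comp (colMap Q)).comp V).det| * ω ≤
        volume (((P j).comp (colMap Q)) '' ((fun x => x) '' (S ∩ R))) := by
      intro j
      have h3 := cover_vol ((P j).comp (colMap Q)) V (fun x => F (h x)) (hF.continuous.comp h.continuous) (by
        intro x hx
        have := hFeq (x := h x) (by simpa [hS₀] using hx)
        rw [← this]
        simp)
      refine h3.trans ?_
      have h4 : range (fun x => F (h x)) ⊆ (S ∩ R) ∪ (S \ R) := by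
        rintro _ ⟨x, rfl⟩
        have h5 : F (h x) ∈ S := mem_range_self _
        by_cases h6 : F (h x) ∈ R
        · exact Or.inl ⟨h5, h6⟩
        · exact Or.inr ⟨h5, h6⟩
      calc volume (((P j).comp (colMap Q)) '' range (fun x => F (h x)))
          ≤ volume (((P j).comp (colMap Q)) '' (S ∩ R) ∪ ((P j).comp (colMap Q)) '' (S \ R)) := by
            rw [← image_union]
            exact measure_mono (image_mono h4)
        _ ≤ volume (((P j).comp (colMap Q)) '' (S ∩ R)) + volume (((P j).comp (colMap Q)) '' (S \ R)) :=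
            measure_union_le _ _
        _ = volume (((P j).comp (colMap Q)) '' (S ∩ R)) := by
            have : ((P j).comp (colMap Q)) '' (S \ R) = P j '' (colMap Q '' (S \ R)) := by
              rw [← image_comp]; rfl
            rw [this, hQ j, add_zero]
        _ = _ := by rw [image_id']
    -- the comparison on the rectifiable part
    have h3 := comparison_on hn w (fun j => (P j).comp (colMap Q)) _ (H.comp (colMap Q)) (fun x : ι → ℝ => x)
      LipschitzWith.id (fun m => closedBall 0 (Nat.unpair m).2)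
      (fun m => φ (Nat.unpair m).1 ∘ (EuclideanSpace.equiv (Fin n) ℝ))
      (fun m => C (Nat.unpair m).1 * ‖((EuclideanSpace.equiv (Fin n) ℝ) : E n →L[ℝ] (Fin n → ℝ))‖₊)
      (fun m => isCompact_closedBall _ _)
      (fun m => ((hφ _).comp ((EuclideanSpace.equiv (Fin n) ℝ) : E n →L[ℝ] (Fin n → ℝ)).lipschitz).lipschitzOnWith)
      (S ∩ R) (hSc.measurableSet.inter hRm) (by
        rintro x ⟨-, hx⟩
        obtain ⟨i, y, rfl⟩ := mem_iUnion.1 hx
        obtain ⟨k, hk⟩ := exists_nat_ge ‖(EuclideanSpace.equiv (Fin n) ℝ).symm y‖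
        refine mem_iUnion.2 ⟨Nat.pair i k, (EuclideanSpace.equiv (Fin n) ℝ).symm y, ?_, ?_⟩
        · simpa using hk
        · simp only [Nat.unpair_pair, Function.comp_apply]
          rw [ContinuousLinearEquiv.apply_symm_apply])
    calc (∑ j, (w j : ℝ≥0∞) * ENNReal.ofReal |(((P j).comp (colMap Q)).comp V).det|) * ω
        = ∑ j, (w j : ℝ≥0∞) * (ENNReal.ofReal |(((P j).comp (colMap Q)).comp V).det| * ω) := by
          rw [Finset.sum_mul]
          exact Finset.sum_congr rfl fun j _ => by ring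
      _ ≤ ∑ j, (w j : ℝ≥0∞) * volume (((P j).comp (colMap Q)) '' ((fun x => x) '' (S ∩ R))) :=
          Finset.sum_le_sum fun j _ => by gcongr; exact h2 j
      _ ≤ ((‖colMap Q‖₊ ^ n * M : ℝ≥0) : ℝ≥0∞) * (1 / 2 ^ n) * μH[(n : ℝ)] (S ∩ R) := h3
      _ ≤ _ := by
          gcongr
          exact (measure_mono inter_subset_left).trans hSμ
  -- passage to the limit
  have hclosed : IsClosed {Q : ι → ι → ℝ | (∑ j, (w j : ℝ≥0∞) * ENNReal.ofReal |(((P j).comp (colMap Q)).comp V).det|) * ω ≤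
        ((‖colMap Q‖₊ ^ n * M : ℝ≥0) : ℝ≥0∞) * (1 / 2 ^ n) * μH[(n : ℝ)] (univ : Set X)} := by
    have hc1 : ∀ j, Continuous fun Q : ι → ι → ℝ => (((P j).comp (colMap Q)).comp V).det := by
      intro j
      have h2 : Continuous fun Q : ι → ι → ℝ => ((P j).comp (colMap Q)).comp V :=
        (continuous_const.clm_comp colMap_continuous).clm_comp continuous_const
      exact ContinuousLinearMap.continuous_det.comp h2
    refine isClosed_le ?_ ?_
    · refine ENNReal.continuous_mul_const hωt |>.comp ?_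
      refine continuous_finsetSum _ fun j _ => ?_
      exact (ENNReal.continuous_const_mul ENNReal.coe_ne_top).comp
        (ENNReal.continuous_ofReal.comp (hc1 j).abs)
    · have h2 : Continuous fun Q : ι → ι → ℝ => ((‖colMap Q‖₊ ^ n * M : ℝ≥0) : ℝ≥0∞) :=
        ENNReal.continuous_coe.comp ((colMap_continuous.nnnorm.pow n).mul continuous_const)
      have h3 : (1 / 2 ^ n : ℝ≥0∞) ≠ ∞ := by finiteness
      exact (ENNReal.continuous_mul_const hX).comp ((ENNReal.continuous_mul_const h3).comp h2)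
  have hdense := Measure.dense_of_ae hae
  have hall : (univ : Set (ι → ι → ℝ)) ⊆ {Q : ι → ι → ℝ | (∑ j, (w j : ℝ≥0∞) * ENNReal.ofReal |(((P j).comp (colMap Q)).comp V).det|) * ω ≤
        ((‖colMap Q‖₊ ^ n * M : ℝ≥0) : ℝ≥0∞) * (1 / 2 ^ n) * μH[(n : ℝ)] (univ : Set X)} := by
    rw [← hdense.closure_eq]
    exact closure_minimal (fun Q hQ => hgood Q hQ) hclosed
  have hfinal := hall (mem_univ (fun i : ι => Pi.single i (1 : ℝ)))
  rw [mem_ofPred_eq, colMap_id] at hfinal
  refine le_trans (by simpa using hfinal) ?_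
  have hnorm : ‖ContinuousLinearMap.id ℝ (ι → ℝ)‖₊ ≤ 1 := ContinuousLinearMap.norm_id_le
  gcongr
  calc (‖ContinuousLinearMap.id ℝ (ι → ℝ)‖₊ : ℝ≥0∞) ^ n * M ≤ 1 ^ n * M := by
        gcongr
        exact_mod_cast hnorm
    _ = M := by rw [one_pow, one_mul]
  rw [one_div]

end Pool.Agent.Helper924_BV
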