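import Pool.Agent.Helper924_BV.Defs
import Pool.Agent.Helper361.SteinerPolar

open MeasureTheory Metric Set
open scoped ENNReal NNReal Pointwise

namespace Pool.Agent.Helper924_BV

/-- If all differences of points of `S` lie in the closed set `C` then the volume of `S` is at most that of `C / 2`. -/
lemma vol_le_of_diff {n : ℕ} {S C : Set (E n)} (hC : IsClosed C) (h : ∀ x ∈ S, ∀ y ∈ S, x - y ∈ C) :
    volume S ≤ volume ((1 / 2 : ℝ) • C) := by
  have hcl : ∀ x ∈ closure S, ∀ y ∈ closure S, x - y ∈ C := by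
    intro x hx y hy
    have h1 : (x, y) ∈ closure (S ×ˢ S) := by rw [closure_prod_eq]; exact ⟨hx, hy⟩
    have h2 : IsClosed {p : E n × E n | p.1 - p.2 ∈ C} := hC.preimage (by fun_prop)
    exact (closure_minimal (fun p hp => h p.1 hp.1 p.2 hp.2) h2) h1
  have hC' : IsClosed ((1 / 2 : ℝ) • C) := hC.smul_of_ne_zero (by norm_num)
  have := Pool.Agent.Helper361.SteinerPolar.bm_E (A := closure S) (B := -closure S) (C := (1 / 2 : ℝ) • C)
    isClosed_closure.measurableSet isClosed_closure.neg.measurableSet hC'.measurableSet (by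
      intro a ha b hb
      refine ⟨a + b, ?_, rfl⟩
      have := hcl a ha (-b) hb
      simpa using this)
  rw [Measure.measure_neg, ← sq] at this
  exact (measure_mono subset_closure).trans ((ENNReal.pow_le_pow_left_iff two_ne_zero).1 this)

/-- volume of the sublevel sets of `‖G u‖` -/
lemma vol_sublevel {n : ℕ} {ι : Type*} [Fintype ι] (G : E n →L[ℝ] (ι → ℝ)) {R : ℝ} (hR : 0 ≤ R)
    (hn : 0 < n) (hG : ∀ u, G u = 0 → u = 0) :
    volume ((1 / 2 : ℝ) • {u : E n | ‖G u‖ ≤ R}) = ENNReal.ofReal ((R / 2) ^ n) * volume {u : E n | ‖G u‖ ≤ 1} := by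
  rcases hR.eq_or_lt with rfl | hR
  · have h1 : {u : E n | ‖G u‖ ≤ 0} = {0} := by
      ext u
      simp only [mem_ofPred_eq, norm_le_zero_iff, mem_singleton_iff]
      exact ⟨hG u, fun h => by rw [h, map_zero]⟩
    rw [h1]
    have : Nonempty (Fin n) := ⟨⟨0, hn⟩⟩
    simp [hn.ne']
  · have h1 : {u : E n | ‖G u‖ ≤ R} = R • {u : E n | ‖G u‖ ≤ 1} := by
      ext u
      rw [mem_smul_set_iff_inv_smul_mem₀ hR.ne']
      simp only [mem_ofPred_eq, map_smul, norm_smul, norm_inv, Real.norm_eq_abs, abs_of_pos hR]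
      rw [inv_mul_le_iff₀ hR, mul_one]
    rw [h1, smul_smul, Measure.addHaar_smul]
    congr 2
    simp only [finrank_euclideanSpace, Fintype.card_fin]
    rw [abs_of_nonneg (by positivity)]
    congr 1
    ring

/-- a bound for an outer measure by Hausdorff measure -/
lemma outer_le_hausdorff {X : Type*} [MetricSpace X] [MeasurableSpace X] [BorelSpace X] (ν : OuterMeasure X)
    {n : ℕ} {c : ℝ≥0∞} (hc : c ≠ ∞) (hc0 : c ≠ 0) (h : ∀ s : Set X, ν s ≤ c * ediam s ^ (n : ℝ)) (A : Set X) :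
    ν A ≤ c * μH[(n : ℝ)] A := by
  have h1 : ν ≤ OuterMeasure.mkMetric (c • fun r : ℝ≥0∞ => r ^ (n : ℝ)) :=
    OuterMeasure.le_mkMetric _ ν 1 one_pos fun s _ => by
      simpa using h s
  rw [OuterMeasure.mkMetric_smul _ hc hc0] at h1
  have h2 := h1 A
  rw [smul_apply, OuterMeasure.coe_mkMetric] at h2
  exact h2

theorem local_volume {n : ℕ} (hn : 0 < n) {ι : Type*} [Fintype ι] {X : Type*} [MetricSpace X] [MeasurableSpace X]
    [BorelSpace X] {F : X → (ι → ℝ)} (hF : LipschitzWith 1 F) {φ : E n → X} {A : Set (E n)}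
    {G : E n →L[ℝ] (ι → ℝ)} {a δ : ℝ≥0} (hδ : δ < a) (hG : ∀ u, a * ‖u‖ ≤ ‖G u‖)
    (hA : ApproximatesLinearOn (F ∘ φ) G A δ) :
    volume A ≤ ENNReal.ofReal ((a / (2 * (a - δ))) ^ n) * volume {u : E n | ‖G u‖ ≤ 1} * μH[(n : ℝ)] (φ '' A) := by
  have ha : (0 : ℝ) < a := lt_of_le_of_lt δ.2 (by exact_mod_cast hδ)
  have had : (0 : ℝ) < a - δ := sub_pos.2 (by exact_mod_cast hδ)
  have hG0 : ∀ u, G u = 0 → u = 0 := fun u hu => by
    have := hG u
    rw [hu, norm_zero] at this
    have h2 : ‖u‖ ≤ 0 := by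
      by_contra hcon
      rw [not_le] at hcon
      have := mul_pos ha hcon
      linarith
    exact norm_le_zero_iff.1 h2
  set c : ℝ≥0∞ := ENNReal.ofReal ((a / (2 * (a - δ))) ^ n) * volume {u : E n | ‖G u‖ ≤ 1} with hc
  have hcpos : (0 : ℝ) < (a / (2 * (a - δ))) ^ n := by positivity
  have hfin : volume {u : E n | ‖G u‖ ≤ 1} < ∞ := by
    refine (measure_mono (?_ : _ ⊆ closedBall (0 : E n) (1 / a))).trans_lt measure_closedBall_lt_top
    intro u hu
    rw [mem_closedBall_zero_iff, le_div_iff₀ ha, mul_comm]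
    exact (hG u).trans hu
  have hpos : volume {u : E n | ‖G u‖ ≤ 1} ≠ 0 := by
    have : IsOpen {u : E n | ‖G u‖ < 1} := isOpen_lt (by fun_prop) continuous_const
    have h2 := this.measure_pos volume ⟨0, by simp⟩
    exact (h2.trans_le (measure_mono fun u (hu : ‖G u‖ < 1) => (le_of_lt hu : ‖G u‖ ≤ 1))).ne'
  have hc1 : c ≠ ∞ := ENNReal.mul_ne_top ENNReal.ofReal_ne_top hfin.ne
  have hc0 : c ≠ 0 := mul_ne_zero (by simpa using hcpos) hpos
  let ν : OuterMeasure X := OuterMeasure.map φ (OuterMeasure.restrict A volume.toOuterMeasure)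
  have hν : ∀ T : Set X, ν T = volume (φ ⁻¹' T ∩ A) := fun T => by
    simp [ν, OuterMeasure.restrict_apply]
  have key : ∀ T : Set X, ν T ≤ c * ediam T ^ (n : ℝ) := by
    intro T
    rw [hν]
    by_cases hT : ediam T = ∞
    · rw [hT, ENNReal.top_rpow_of_pos (by exact_mod_cast hn), ENNReal.mul_top hc0]
      exact le_top
    set D : ℝ := (ediam T).toReal with hD
    have hD0 : 0 ≤ D := ENNReal.toReal_nonneg
    have hTD : ediam T = ENNReal.ofReal D := (ENNReal.ofReal_toReal hT).symm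
    set R : ℝ := D * (a / (a - δ)) with hR
    have hR0 : 0 ≤ R := by positivity
    have hdiff : ∀ x ∈ φ ⁻¹' T ∩ A, ∀ y ∈ φ ⁻¹' T ∩ A, x - y ∈ {u : E n | ‖G u‖ ≤ R} := by
      intro x hx y hy
      have h1 : ‖F (φ x) - F (φ y)‖ ≤ D := by
        rw [← dist_eq_norm]
        have h2 : dist (F (φ x)) (F (φ y)) ≤ dist (φ x) (φ y) := by simpa using hF.dist_le_mul (φ x) (φ y)
        refine h2.trans ?_
        rw [← ENNReal.ofReal_le_ofReal_iff hD0, ← hTD, ← edist_dist]
        exact edist_le_ediam_of_mem hx.1 hy.1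
      have h3 : ‖F (φ x) - F (φ y) - G (x - y)‖ ≤ δ * ‖x - y‖ := hA x hx.2 y hy.2
      have h4 : ‖G (x - y)‖ ≤ D + δ * ‖x - y‖ := by
        have : G (x - y) = (F (φ x) - F (φ y)) - (F (φ x) - F (φ y) - G (x - y)) := by abel
        rw [this]
        exact (norm_sub_le _ _).trans (add_le_add h1 h3)
      have h5 := hG (x - y)
      have h6 : ‖x - y‖ ≤ D / (a - δ) := by
        rw [le_div_iff₀ had]
        nlinarith
      show ‖G (x - y)‖ ≤ R
      have h7 : (δ : ℝ) * ‖x - y‖ ≤ δ * (D / (a - δ)) := mul_le_mul_of_nonneg_left h6 δ.2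
      have h8 : D + δ * (D / (a - δ)) = R := by
        rw [hR]; field_simp; ring
      linarith
    have hcl : IsClosed {u : E n | ‖G u‖ ≤ R} := isClosed_le (by fun_prop) continuous_const
    refine (vol_le_of_diff hcl hdiff).trans ?_
    rw [vol_sublevel G hR0 hn hG0, hTD, ENNReal.ofReal_rpow_of_nonneg hD0 (by positivity), Real.rpow_natCast, hc,
      mul_right_comm, ← ENNReal.ofReal_mul hcpos.le]
    refine mul_le_mul_left (ENNReal.ofReal_le_ofReal (le_of_eq ?_)) _
    rw [hR, ← mul_pow]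
    congr 1
    field_simp
  have := outer_le_hausdorff ν hc1 hc0 key (φ '' A)
  rw [hν] at this
  refine le_trans (measure_mono ?_) this
  exact fun x hx => ⟨mem_image_of_mem _ hx, hx⟩

end Pool.Agent.Helper924_BV
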