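import Pool.Agent.Helper924_BV.Defs
import Pool.Agent.Helper924_BV.Ber0

set_option autoImplicit false

namespace Pool.Agent.Helper924_BV

/-! auxiliary lemmas for `rad_bound` -/

/-- Walsh function -/
noncomputable def rbw {n : ℕ} (A : Finset (Fin n)) (ε : Fin n → Bool) : ℝ := ∏ i ∈ A, sg (ε i)

theorem rb_sum_prod {n : ℕ} (G : Fin n → Bool → ℝ) :
    ∑ θ : Fin n → Bool, ∏ i, G i (θ i) = ∏ i, (G i true + G i false) := by
  have h := Finset.prod_univ_sum (fun _ : Fin n => (Finset.univ : Finset Bool)) G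
  rw [Fintype.piFinset_univ] at h
  rw [← h]
  apply Finset.prod_congr rfl
  intro i _
  rw [Fintype.sum_bool]

theorem rb_orth {n : ℕ} (A B : Finset (Fin n)) :
    ∑ θ : Fin n → Bool, rbw A θ * rbw B θ = if A = B then (2:ℝ) ^ n else 0 := by
  have h1 : ∀ θ : Fin n → Bool, rbw A θ * rbw B θ =
      ∏ i, ((if i ∈ A then sg (θ i) else 1) * (if i ∈ B then sg (θ i) else 1)) := by
    intro θ
    rw [Finset.prod_mul_distrib, Finset.prod_ite_mem, Finset.prod_ite_mem, Finset.univ_inter,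
      Finset.univ_inter]
    rfl
  simp_rw [h1]
  rw [rb_sum_prod (fun i b => (if i ∈ A then sg b else 1) * (if i ∈ B then sg b else 1))]
  split_ifs with hAB
  · subst hAB
    have : ∀ i ∈ (Finset.univ : Finset (Fin n)), ((if i ∈ A then sg true else 1) *
        (if i ∈ A then sg true else 1) + (if i ∈ A then sg false else 1) *
        (if i ∈ A then sg false else 1)) = (2:ℝ) := by
      intro i _
      split_ifs <;> norm_num [sg]
    rw [Finset.prod_congr rfl this]
    simp
  · have hne : ∃ i, ¬ (i ∈ A ↔ i ∈ B) := by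
      by_contra hcon
      push Not at hcon
      exact hAB (Finset.ext hcon)
    obtain ⟨i, hi⟩ := hne
    apply Finset.prod_eq_zero (Finset.mem_univ i)
    by_cases hA : i ∈ A
    · have hB : i ∉ B := fun hB => hi ⟨fun _ => hB, fun _ => hA⟩
      simp [hA, hB, sg]
    · have hB : i ∈ B := by
        by_contra hB
        exact hi ⟨fun h => absurd h hA, fun h => absurd h hB⟩
      simp [hA, hB, sg]

/-- the kernel -/
noncomputable def rbk {n : ℕ} (ρ : ℝ) (θ ε : Fin n → Bool) : ℝ :=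
  ∏ i, (1 + ρ * (sg (θ i) * sg (ε i)))

theorem rbk_expand {n : ℕ} (ρ : ℝ) (θ ε : Fin n → Bool) :
    rbk ρ θ ε = ∑ A : Finset (Fin n), ρ ^ A.card * (rbw A θ * rbw A ε) := by
  unfold rbk rbw
  rw [Finset.prod_one_add]
  rw [Finset.powerset_univ]
  apply Finset.sum_congr rfl
  intro A _
  rw [Finset.prod_mul_distrib, Finset.prod_const, Finset.prod_mul_distrib]

theorem rbk_nonneg {n : ℕ} {ρ : ℝ} (hρ : |ρ| ≤ 1) (θ ε : Fin n → Bool) : 0 ≤ rbk ρ θ ε := by
  apply Finset.prod_nonneg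
  intro i _
  have := abs_le.mp hρ
  unfold sg
  split_ifs <;> linarith

theorem rbk_sum {n : ℕ} (ρ : ℝ) (θ : Fin n → Bool) : ∑ ε, rbk ρ θ ε = 2 ^ n := by
  unfold rbk
  rw [rb_sum_prod (fun i b => 1 + ρ * (sg (θ i) * sg b))]
  have : ∀ i ∈ (Finset.univ : Finset (Fin n)), (1 + ρ * (sg (θ i) * sg true) +
      (1 + ρ * (sg (θ i) * sg false))) = (2:ℝ) := by
    intro i _
    simp only [sg]
    norm_num
    ring
  rw [Finset.prod_congr rfl this]
  simp

/-- the coefficient of the Walsh function -/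
noncomputable def rbc {n : ℕ} (g : (Fin n → Bool) → ℝ) (A : Finset (Fin n)) : ℝ :=
  (∑ ε, rbw A ε * g ε) / 2 ^ n

/-- the homogeneous part of degree `k` -/
noncomputable def rba {n : ℕ} (g : (Fin n → Bool) → ℝ) (θ : Fin n → Bool) (k : ℕ) : ℝ :=
  ∑ A ∈ (Finset.univ : Finset (Finset (Fin n))).filter (fun A => A.card = k), rbw A θ * rbc g A

theorem rb_poly {n : ℕ} (g : (Fin n → Bool) → ℝ) (θ : Fin n → Bool) (ρ : ℝ) :
    ∑ k ∈ Finset.range (n + 1), rba g θ k * ρ ^ k = (∑ ε, rbk ρ θ ε * g ε) / 2 ^ n := by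
  have h1 : ∀ k, rba g θ k * ρ ^ k =
      ∑ A ∈ (Finset.univ : Finset (Finset (Fin n))).filter (fun A => A.card = k),
        ρ ^ A.card * (rbw A θ * rbc g A) := by
    intro k
    unfold rba
    rw [Finset.sum_mul]
    apply Finset.sum_congr rfl
    intro A hA
    rw [(Finset.mem_filter.mp hA).2]
    ring
  simp_rw [h1]
  rw [Finset.sum_fiberwise_of_maps_to (s := (Finset.univ : Finset (Finset (Fin n))))
    (t := Finset.range (n + 1)) (g := fun A => A.card)
    (f := fun A => ρ ^ A.card * (rbw A θ * rbc g A))]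
  · simp_rw [rbk_expand, Finset.sum_mul]
    rw [Finset.sum_comm, Finset.sum_div]
    apply Finset.sum_congr rfl
    intro A _
    unfold rbc
    rw [mul_div_assoc', mul_div_assoc', Finset.mul_sum, Finset.mul_sum]
    congr 1
    apply Finset.sum_congr rfl
    intro ε _
    ring
  · intro A _
    rw [Finset.mem_range, Nat.lt_succ_iff]
    exact (Finset.card_le_univ A).trans (by simp)

theorem rb_poly_le {n : ℕ} (g : (Fin n → Bool) → ℝ) (hg : ∀ ε, |g ε| ≤ 1) (θ : Fin n → Bool)
    {ρ : ℝ} (hρ : |ρ| ≤ 1) : |∑ k ∈ Finset.range (n + 1), rba g θ k * ρ ^ k| ≤ 1 := by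
  rw [rb_poly, abs_div, abs_of_pos (by positivity : (0:ℝ) < 2 ^ n), div_le_one (by positivity)]
  calc |∑ ε, rbk ρ θ ε * g ε| ≤ ∑ ε, |rbk ρ θ ε * g ε| := Finset.abs_sum_le_sum_abs _ _
    _ ≤ ∑ ε, rbk ρ θ ε := by
        apply Finset.sum_le_sum
        intro ε _
        rw [abs_mul, abs_of_nonneg (rbk_nonneg hρ θ ε)]
        exact mul_le_of_le_one_right (rbk_nonneg hρ θ ε) (hg ε)
    _ = 2 ^ n := rbk_sum ρ θ

theorem rba_eq_zero {n : ℕ} (g : (Fin n → Bool) → ℝ) (θ : Fin n → Bool) {k : ℕ} (hk : n < k) :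
    rba g θ k = 0 := by
  unfold rba
  apply Finset.sum_eq_zero
  intro A hA
  have h1 := (Finset.mem_filter.mp hA).2
  have h2 : A.card ≤ n := (Finset.card_le_univ A).trans (by simp)
  omega

theorem rba_one {n : ℕ} (g : (Fin n → Bool) → ℝ) (θ : Fin n → Bool) :
    rba g θ 1 = (∑ ε, (∑ i, sg (θ i) * sg (ε i)) * g ε) / 2 ^ n := by
  unfold rba
  have h1 : (Finset.univ : Finset (Finset (Fin n))).filter (fun A => A.card = 1) =
      (Finset.univ : Finset (Fin n)).image (fun i => ({i} : Finset (Fin n))) := by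
    ext A
    simp only [Finset.mem_filter, Finset.mem_univ, true_and, Finset.mem_image]
    rw [Finset.card_eq_one]
    constructor
    · rintro ⟨a, rfl⟩
      exact ⟨a, rfl⟩
    · rintro ⟨a, rfl⟩
      exact ⟨a, rfl⟩
  rw [h1, Finset.sum_image (by
    intro i _ j _ hij
    exact Finset.singleton_injective hij)]
  unfold rbc rbw
  simp only [Finset.prod_singleton]
  rw [eq_div_iff (by positivity), Finset.sum_mul]
  have h2 : ∀ i, sg (θ i) * ((∑ ε : Fin n → Bool, sg (ε i) * g ε) / 2 ^ n) * 2 ^ n =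
      ∑ ε : Fin n → Bool, sg (θ i) * sg (ε i) * g ε := by
    intro i
    rw [mul_assoc, div_mul_cancel₀ _ (by positivity), Finset.mul_sum]
    apply Finset.sum_congr rfl
    intro ε _
    ring
  rw [Finset.sum_congr rfl (fun i _ => h2 i), Finset.sum_comm]
  apply Finset.sum_congr rfl
  intro ε _
  rw [Finset.sum_mul]

/-- Bessel inequality -/
theorem rb_bessel {n : ℕ} (g : (Fin n → Bool) → ℝ) (hg : ∀ ε, |g ε| ≤ 1) (k : ℕ) :
    ∑ θ, rba g θ k ^ 2 ≤ 2 ^ n := by
  set F := (Finset.univ : Finset (Finset (Fin n))).filter (fun A => A.card = k) with hF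
  have h1 : ∑ θ, rba g θ k ^ 2 = 2 ^ n * ∑ A ∈ F, rbc g A ^ 2 := by
    have : ∀ θ, rba g θ k ^ 2 = ∑ A ∈ F, ∑ B ∈ F, (rbc g A * rbc g B) * (rbw A θ * rbw B θ) := by
      intro θ
      unfold rba
      rw [sq, Finset.sum_mul_sum]
      apply Finset.sum_congr rfl
      intro A _
      apply Finset.sum_congr rfl
      intro B _
      ring
    simp_rw [this]
    rw [Finset.sum_comm, Finset.mul_sum]
    apply Finset.sum_congr rfl
    intro A hA
    rw [Finset.sum_comm]
    simp_rw [← Finset.mul_sum, rb_orth]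
    rw [Finset.sum_eq_single A]
    · rw [if_pos rfl]
      ring
    · intro B _ hB
      rw [if_neg (Ne.symm hB), mul_zero]
    · intro h
      exact absurd hA h
  have h2 : ∑ θ, rba g θ k * g θ = 2 ^ n * ∑ A ∈ F, rbc g A ^ 2 := by
    unfold rba
    simp_rw [Finset.sum_mul]
    rw [Finset.sum_comm, Finset.mul_sum]
    apply Finset.sum_congr rfl
    intro A _
    have : ∑ θ, rbw A θ * g θ = 2 ^ n * rbc g A := by
      unfold rbc
      field_simp
    calc ∑ θ, rbw A θ * rbc g A * g θ = rbc g A * ∑ θ, rbw A θ * g θ := by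
          rw [Finset.mul_sum]
          apply Finset.sum_congr rfl
          intro θ _
          ring
      _ = 2 ^ n * rbc g A ^ 2 := by rw [this]; ring
  have h3 : ∑ θ, rba g θ k * g θ ≤ ∑ θ, (rba g θ k ^ 2 + 1) / 2 := by
    apply Finset.sum_le_sum
    intro θ _
    have h4 := abs_le.mp (hg θ)
    nlinarith [sq_nonneg (rba g θ k - g θ), mul_nonneg (by linarith : 0 ≤ 1 - g θ)
      (by linarith : 0 ≤ 1 + g θ)]
  rw [← Finset.sum_div, Finset.sum_add_distrib] at h3
  simp only [Finset.sum_const, Finset.card_univ, Fintype.card_pi, Fintype.card_bool,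
    Finset.prod_const, Fintype.card_fin, nsmul_eq_mul, mul_one] at h3
  push_cast at h3
  linarith

theorem rb_abs {n : ℕ} (g : (Fin n → Bool) → ℝ) (hg : ∀ ε, |g ε| ≤ 1) (k : ℕ) :
    ∑ θ, |rba g θ k| ≤ 2 ^ n := by
  have h1 := rb_bessel g hg k
  have h2 : ∑ θ, |rba g θ k| ≤ ∑ θ, (rba g θ k ^ 2 + 1) / 2 := by
    apply Finset.sum_le_sum
    intro θ _
    have := sq_abs (rba g θ k)
    nlinarith [sq_nonneg (|rba g θ k| - 1)]
  rw [← Finset.sum_div, Finset.sum_add_distrib] at h2
  simp only [Finset.sum_const, Finset.card_univ, Fintype.card_pi, Fintype.card_bool,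
    Finset.prod_const, Fintype.card_fin, nsmul_eq_mul, mul_one] at h2
  push_cast at h2
  linarith

theorem rba_lin {n : ℕ} {V : Type*} [AddCommGroup V] [Module ℝ V]
    (ℓ : (Fin n → Bool) → V →ₗ[ℝ] ℝ) (b : Fin n → ℝ) (u : Fin n → V) (θ : Fin n → Bool) (k : ℕ) :
    rba (fun ε => ℓ ε (∑ i, b i • u i)) θ k = ∑ i, b i * rba (fun ε => ℓ ε (u i)) θ k := by
  unfold rba rbc
  simp_rw [Finset.mul_sum]
  rw [Finset.sum_comm]
  apply Finset.sum_congr rfl
  intro A _
  simp_rw [map_sum, map_smul, smul_eq_mul, Finset.mul_sum]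
  rw [Finset.sum_comm, Finset.sum_div, Finset.mul_sum]
  apply Finset.sum_congr rfl
  intro i _
  rw [Finset.sum_div, Finset.mul_sum, Finset.sum_div, Finset.mul_sum, Finset.mul_sum]
  apply Finset.sum_congr rfl
  intro ε _
  ring

/-- The Rademacher projection bound. -/
theorem rad_bound {n m : ℕ} (hm : 0 < m) (hnm : n ≤ 2 ^ m) {V : Type*} [AddCommGroup V] [Module ℝ V]
    (B : Set V) (ℓ : (Fin n → Bool) → V →ₗ[ℝ] ℝ) (hℓ : ∀ ε, ∀ v ∈ B, |ℓ ε v| ≤ 1)
    (u : Fin n → V) (b : Fin n → V →ₗ[ℝ] ℝ) (hu : ∀ i, u i ∈ B) (hb : ∀ v ∈ B, ∀ i, |b i v| ≤ 1)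
    (hub : ∀ v, v = ∑ i, b i v • u i)
    (y : (Fin n → Bool) → V) (hy : ∀ θ, y θ ∈ B) :
    (∑ θ : Fin n → Bool, ∑ ε : Fin n → Bool, (∑ i, sg (θ i) * sg (ε i)) * ℓ ε (y θ)) / 4 ^ n ≤ 4 * m := by
  -- the pointwise bound
  have hpt : ∀ θ, rba (fun ε => ℓ ε (y θ)) θ 1 ≤
      2 * m * (1 + ∑ k ∈ Finset.Ioc m n, (1 / 2 : ℝ) ^ k * ∑ i, |rba (fun ε => ℓ ε (u i)) θ k|) := by
    intro θ
    set a : ℕ → ℝ := fun k => rba (fun ε => ℓ ε (y θ)) θ k with ha
    have hak : ∀ k, |a k| ≤ ∑ i, |rba (fun ε => ℓ ε (u i)) θ k| := by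
      intro k
      have e : a k = ∑ i, b i (y θ) * rba (fun ε => ℓ ε (u i)) θ k := by
        rw [← rba_lin ℓ (fun i => b i (y θ)) u θ k]
        simp only [ha]
        congr 1
        funext ε
        congr 1
        exact hub (y θ)
      rw [e]
      refine (Finset.abs_sum_le_sum_abs _ _).trans (Finset.sum_le_sum fun i _ => ?_)
      rw [abs_mul]
      exact mul_le_of_le_one_left (abs_nonneg _) (hb _ (hy θ) i)
    have hmain : |a 1| ≤ 2 * m *
        (1 + ∑ k ∈ Finset.Ioc m n, (1 / 2 : ℝ) ^ k * ∑ i, |rba (fun ε => ℓ ε (u i)) θ k|) := by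
      apply bern0 m hm a
      intro x hx
      have hx1 : |x| ≤ 1 := hx.trans (by norm_num)
      have hp := rb_poly_le (fun ε => ℓ ε (y θ)) (fun ε => hℓ ε _ (hy θ)) θ hx1
      have hsplit : ∑ k ∈ Finset.range (m + 1), a k * x ^ k =
          ∑ k ∈ Finset.range (n + 1), a k * x ^ k - ∑ k ∈ Finset.Ioc m n, a k * x ^ k := by
        rcases le_total m n with hmn | hmn
        · rw [eq_sub_iff_add_eq]
          have hd : Disjoint (Finset.range (m + 1)) (Finset.Ioc m n) := by
            rw [Finset.disjoint_left]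
            intro k hk hk'
            rw [Finset.mem_range] at hk
            rw [Finset.mem_Ioc] at hk'
            omega
          rw [← Finset.sum_union hd]
          congr 1
          ext k
          simp only [Finset.mem_union, Finset.mem_range, Finset.mem_Ioc]
          omega
        · rw [Finset.Ioc_eq_empty (by omega), Finset.sum_empty, sub_zero]
          symm
          apply Finset.sum_subset
          · intro k hk
            rw [Finset.mem_range] at hk ⊢
            omega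
          · intro k _ hk
            rw [Finset.mem_range] at hk
            have : a k = 0 := rba_eq_zero _ θ (by omega)
            rw [this, zero_mul]
      rw [hsplit]
      refine (abs_sub _ _).trans (add_le_add hp ?_)
      refine (Finset.abs_sum_le_sum_abs _ _).trans (Finset.sum_le_sum fun k _ => ?_)
      rw [abs_mul, abs_pow, mul_comm]
      exact mul_le_mul (pow_le_pow_left₀ (abs_nonneg _) hx k) (hak k) (abs_nonneg _)
        (by positivity)
    exact (le_abs_self _).trans hmain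
  -- the sum over `θ`
  have h4 : (4:ℝ) ^ n = 2 ^ n * 2 ^ n := by
    rw [← mul_pow]
    norm_num
  have hsum : (∑ θ : Fin n → Bool, ∑ ε : Fin n → Bool,
      (∑ i, sg (θ i) * sg (ε i)) * ℓ ε (y θ)) / 4 ^ n =
      (∑ θ, rba (fun ε => ℓ ε (y θ)) θ 1) / 2 ^ n := by
    simp_rw [rba_one]
    rw [← Finset.sum_div, div_div, h4]
  rw [hsum, div_le_iff₀ (by positivity)]
  have hcard : ((Finset.univ : Finset (Fin n → Bool)).card : ℝ) = 2 ^ n := by
    simp
  calc ∑ θ, rba (fun ε => ℓ ε (y θ)) θ 1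
      ≤ ∑ θ : Fin n → Bool, 2 * m * (1 + ∑ k ∈ Finset.Ioc m n,
          (1 / 2 : ℝ) ^ k * ∑ i, |rba (fun ε => ℓ ε (u i)) θ k|) :=
        Finset.sum_le_sum fun θ _ => hpt θ
    _ = 2 * m * (2 ^ n + ∑ k ∈ Finset.Ioc m n, (1 / 2 : ℝ) ^ k *
          ∑ i, ∑ θ : Fin n → Bool, |rba (fun ε => ℓ ε (u i)) θ k|) := by
        rw [← Finset.mul_sum, Finset.sum_add_distrib, Finset.sum_const, nsmul_eq_mul, mul_one,
          hcard]
        congr 2
        rw [Finset.sum_comm]
        apply Finset.sum_congr rfl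
        intro k _
        rw [← Finset.mul_sum, Finset.sum_comm]
    _ ≤ 2 * m * (2 ^ n + ∑ k ∈ Finset.Ioc m n, (1 / 2 : ℝ) ^ k * (n * 2 ^ n)) := by
        apply mul_le_mul_of_nonneg_left _ (by positivity)
        apply add_le_add le_rfl
        apply Finset.sum_le_sum
        intro k _
        apply mul_le_mul_of_nonneg_left _ (by positivity)
        calc ∑ i, ∑ θ : Fin n → Bool, |rba (fun ε => ℓ ε (u i)) θ k|
            ≤ ∑ _i : Fin n, (2:ℝ) ^ n :=
              Finset.sum_le_sum fun i _ => rb_abs _ (fun ε => hℓ ε _ (hu i)) k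
          _ = n * 2 ^ n := by simp
    _ ≤ 2 * m * (2 ^ n + 2 ^ n) := by
        apply mul_le_mul_of_nonneg_left _ (by positivity)
        apply add_le_add le_rfl
        rw [← Finset.sum_mul]
        have hgeo : ∑ k ∈ Finset.Ioc m n, (1 / 2 : ℝ) ^ k ≤ (1 / 2 : ℝ) ^ m := by
          rcases le_total m n with hmn | hmn
          · have key : ∀ d : ℕ, ∑ k ∈ Finset.Ioc m (m + d), (1 / 2 : ℝ) ^ k =
                (1 / 2 : ℝ) ^ m - (1 / 2 : ℝ) ^ (m + d) := by
              intro d
              induction d with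
              | zero => simp
              | succ d ih =>
                rw [← add_assoc, Finset.sum_Ioc_succ_top (by omega), ih, pow_succ]
                ring
            have h5 := key (n - m)
            rw [Nat.add_sub_cancel' hmn] at h5
            rw [h5]
            have : (0:ℝ) < (1 / 2 : ℝ) ^ n := by positivity
            linarith
          · rw [Finset.Ioc_eq_empty (by omega), Finset.sum_empty]
            positivity
        have hn : (n:ℝ) ≤ 2 ^ m := by exact_mod_cast hnm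
        have h2 : (1 / 2 : ℝ) ^ m * 2 ^ m = 1 := by
          rw [← mul_pow]
          norm_num
        have h3 : (∑ k ∈ Finset.Ioc m n, (1 / 2 : ℝ) ^ k) * n ≤ 1 := by
          calc (∑ k ∈ Finset.Ioc m n, (1 / 2 : ℝ) ^ k) * n ≤ (1 / 2 : ℝ) ^ m * 2 ^ m :=
                mul_le_mul hgeo hn (by positivity) (by positivity)
            _ = 1 := h2
        calc (∑ k ∈ Finset.Ioc m n, (1 / 2 : ℝ) ^ k) * (n * 2 ^ n)
            = ((∑ k ∈ Finset.Ioc m n, (1 / 2 : ℝ) ^ k) * n) * 2 ^ n := by ring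
          _ ≤ 1 * 2 ^ n := mul_le_mul_of_nonneg_right h3 (by positivity)
          _ = 2 ^ n := one_mul _
    _ = 4 * m * 2 ^ n := by ring

end Pool.Agent.Helper924_BV

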