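import Pool.Agent.Helper924_BV.Defs
import Pool.Agent.Helper361.SteinerPolar
/-! helper924, MP_8115c2_gt, job SYM: volume and mean support function over sign vectors. -/
open MeasureTheory
namespace Pool.Agent.Helper924_BV

open Pool.Agent.Helper361.SteinerPolar (bm_E)

theorem sg_not (b : Bool) : sg (!b) = - sg b := by cases b <;> simp [sg]

theorem sg_sq (b : Bool) : sg b * sg b = 1 := by cases b <;> simp [sg]

/-- the reflection in the coordinate `k` -/
noncomputable def vlRefl {n : ℕ} (k : Fin n) : EuclideanSpace ℝ (Fin n) ≃ₗᵢ[ℝ] EuclideanSpace ℝ (Fin n) :=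
  LinearIsometryEquiv.piLpCongrRight 2 (fun i => if i = k then LinearIsometryEquiv.neg ℝ else LinearIsometryEquiv.refl ℝ ℝ)

theorem vlRefl_same {n : ℕ} (k : Fin n) (x : EuclideanSpace ℝ (Fin n)) : vlRefl k x k = - x k := by
  simp [vlRefl]

theorem vlRefl_ne {n : ℕ} (k i : Fin n) (h : i ≠ k) (x : EuclideanSpace ℝ (Fin n)) : vlRefl k x i = x i := by
  simp [vlRefl, h]

/-- the flip of the coordinate `k` of a sign vector -/
def vlFlip {n : ℕ} (k : Fin n) (θ : Fin n → Bool) : Fin n → Bool := Function.update θ k (!θ k)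

theorem vlFlip_flip {n : ℕ} (k : Fin n) (θ : Fin n → Bool) : vlFlip k (vlFlip k θ) = θ := by
  funext i
  by_cases h : i = k
  · subst h; simp [vlFlip]
  · simp [vlFlip, h]

theorem vlFlip_comm {n : ℕ} (k l : Fin n) (θ : Fin n → Bool) :
    vlFlip k (vlFlip l θ) = vlFlip l (vlFlip k θ) := by
  by_cases hkl : k = l
  · subst hkl; rfl
  funext i
  by_cases h : i = k
  · subst h; simp [vlFlip, hkl]
  · by_cases h2 : i = l
    · subst h2; simp [vlFlip, h]
    · simp [vlFlip, h, h2]

theorem vlSum_flip {n : ℕ} (k : Fin n) (g : (Fin n → Bool) → ℝ) :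
    ∑ θ, g (vlFlip k θ) = ∑ θ, g θ :=
  Fintype.sum_equiv (Function.Involutive.toPerm (vlFlip k) (vlFlip_flip k)) _ _ (fun _ => rfl)

theorem vlInner_refl {n : ℕ} (k : Fin n) (θ : Fin n → Bool) (x : EuclideanSpace ℝ (Fin n)) :
    ∑ i, sg (θ i) * vlRefl k x i = ∑ i, sg (vlFlip k θ i) * x i := by
  refine Finset.sum_congr rfl fun i _ => ?_
  by_cases h : i = k
  · subst h
    rw [vlRefl_same, vlFlip, Function.update_self, sg_not]; ring
  · rw [vlRefl_ne k i h, vlFlip, Function.update_of_ne h]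

/-- a function on sign vectors which is invariant under all flips is constant -/
theorem vlConst {n : ℕ} (g : (Fin n → Bool) → ℝ) (hg : ∀ k θ, g (vlFlip k θ) = g θ)
    (θ θ' : Fin n → Bool) : g θ = g θ' := by
  classical
  have key : ∀ S : Finset (Fin n), g (fun i => if i ∈ S then θ' i else θ i) = g θ := by
    intro S
    induction S using Finset.induction_on with
    | empty => simp
    | @insert a S ha ih =>
      rw [← ih]
      by_cases hb : θ' a = θ a
      · congr 1
        funext i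
        by_cases hi : i = a
        · subst hi; simp [ha, hb]
        · simp [hi]
      · rw [← hg a (fun i => if i ∈ S then θ' i else θ i)]
        congr 1
        funext i
        by_cases hi : i = a
        · subst hi
          simp only [Finset.mem_insert, true_or, if_true, vlFlip, Function.update_self, ha, if_false]
          cases h1 : θ' i <;> cases h2 : θ i <;> simp_all
        · simp [hi, vlFlip]
  have := key Finset.univ
  simpa using this.symm

/-- one symmetrisation step -/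
theorem vlStep {n : ℕ} (k : Fin n) (L : Set (EuclideanSpace ℝ (Fin n))) (hL : IsCompact L) :
    ∃ L' : Set (EuclideanSpace ℝ (Fin n)), IsCompact L' ∧ volume L ≤ volume L' ∧
      ∀ y ∈ L', ∃ a ∈ L, ∃ b ∈ L, y = (1 / 2 : ℝ) • (a + vlRefl k b) := by
  refine ⟨(fun p : EuclideanSpace ℝ (Fin n) × EuclideanSpace ℝ (Fin n) =>
    (1 / 2 : ℝ) • (p.1 + vlRefl k p.2)) '' (L ×ˢ L), ?_, ?_, ?_⟩
  · refine (hL.prod hL).image ?_
    have := (vlRefl k).continuous
    fun_prop
  · set C := (fun p : EuclideanSpace ℝ (Fin n) × EuclideanSpace ℝ (Fin n) =>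
      (1 / 2 : ℝ) • (p.1 + vlRefl k p.2)) '' (L ×ˢ L) with hCdef
    have hC : IsCompact C := by
      refine (hL.prod hL).image ?_
      have := (vlRefl k).continuous
      fun_prop
    have hB : IsCompact (vlRefl k '' L) := hL.image (vlRefl k).continuous
    have h1 := bm_E hL.measurableSet hB.measurableSet hC.measurableSet (by
      rintro a ha _ ⟨b, hb, rfl⟩
      exact ⟨(a, b), ⟨ha, hb⟩, rfl⟩)
    have h2 : volume (vlRefl k '' L) = volume L := by
      have h3 := (vlRefl k).symm.measurePreserving.measure_preimage hL.measurableSet.nullMeasurableSet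
      rw [← h3]
      congr 1
      ext x
      constructor
      · rintro ⟨y, hy, rfl⟩
        simpa using hy
      · intro hx
        exact ⟨(vlRefl k).symm x, hx, by simp⟩
    rw [h2, ← sq] at h1
    by_contra hcon
    push Not at hcon
    exact absurd h1 (not_le.2 (ENNReal.pow_lt_pow_left two_ne_zero hcon))
  · rintro _ ⟨⟨a, b⟩, ⟨ha, hb⟩, rfl⟩
    exact ⟨a, ha, b, hb, rfl⟩

/-- the state after `j` steps -/
theorem vlIter {n : ℕ} (L : Set (EuclideanSpace ℝ (Fin n))) (hL : IsCompact L)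
    (g : (Fin n → Bool) → ℝ) (hg : ∀ y ∈ L, ∀ θ : Fin n → Bool, ∑ i, sg (θ i) * y i ≤ g θ) :
    ∀ j : ℕ, j ≤ n → ∃ (L' : Set (EuclideanSpace ℝ (Fin n))) (g' : (Fin n → Bool) → ℝ),
      IsCompact L' ∧ volume L ≤ volume L' ∧
      (∀ y ∈ L', ∀ θ : Fin n → Bool, ∑ i, sg (θ i) * y i ≤ g' θ) ∧ ∑ θ, g' θ = ∑ θ, g θ ∧
      ∀ (k : Fin n), k.1 < j → ∀ θ, g' (vlFlip k θ) = g' θ := by
  intro j
  induction j with
  | zero => intro _; exact ⟨L, g, hL, le_refl _, hg, rfl, fun k hk => absurd hk (Nat.not_lt_zero _)⟩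
  | succ j ih =>
    intro hj
    obtain ⟨L', g', hL', hv, hg', hs, hf⟩ := ih (by omega)
    obtain ⟨L'', hL'', hv', hm⟩ := vlStep ⟨j, by omega⟩ L' hL'
    refine ⟨L'', fun θ => (g' θ + g' (vlFlip ⟨j, by omega⟩ θ)) / 2, hL'', hv.trans hv', ?_, ?_, ?_⟩
    · intro y hy θ
      obtain ⟨a, ha, b, hb, rfl⟩ := hm y hy
      have h1 := hg' a ha θ
      have h2 := hg' b hb (vlFlip ⟨j, by omega⟩ θ)
      rw [← vlInner_refl] at h2
      have h3 : ∑ i, sg (θ i) * ((1 / 2 : ℝ) • (a + vlRefl ⟨j, by omega⟩ b)) i =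
          (∑ i, sg (θ i) * a i + ∑ i, sg (θ i) * vlRefl ⟨j, by omega⟩ b i) / 2 := by
        rw [← Finset.sum_add_distrib, Finset.sum_div]
        refine Finset.sum_congr rfl fun i _ => ?_
        simp only [PiLp.smul_apply, PiLp.add_apply, smul_eq_mul]
        ring
      rw [h3]
      linarith
    · rw [← Finset.sum_div, Finset.sum_add_distrib, vlSum_flip, hs]
      ring
    · intro k hk θ
      rcases Nat.lt_succ_iff_lt_or_eq.1 hk with h | h
      · simp only [hf k h, vlFlip_comm _ k]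
      · have hk' : k = ⟨j, by omega⟩ := Fin.ext h
        rw [hk']
        simp only [vlFlip_flip]
        ring

/-- volume of the ball of the `l1` norm -/
theorem vlBall {n : ℕ} (c : ℝ) (hc : 0 ≤ c) :
    volume {x : EuclideanSpace ℝ (Fin n) | ∑ i, |x i| ≤ c} ≤
      ENNReal.ofReal ((2 * c) ^ n / n.factorial) := by
  have h0 : volume {x : EuclideanSpace ℝ (Fin n) | ∑ i, |x i| ≤ c} =
      volume {x : Fin n → ℝ | ∑ i, |x i| ≤ c} := by
    have hms : MeasurableSet {x : Fin n → ℝ | ∑ i, |x i| ≤ c} := by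
      refine measurableSet_le ?_ measurable_const
      fun_prop
    have := (PiLp.volume_preserving_ofLp (Fin n)).measure_preimage hms.nullMeasurableSet
    rw [← this]
    rfl
  rw [h0]
  rcases Nat.eq_zero_or_pos n with hn | hn
  · subst hn
    calc volume {x : Fin 0 → ℝ | ∑ i, |x i| ≤ c} ≤ volume (Set.univ : Set (Fin 0 → ℝ)) :=
          measure_mono (Set.subset_univ _)
      _ = 1 := by simp [volume_pi]
      _ ≤ _ := by simp
  · have : Nonempty (Fin n) := ⟨⟨0, hn⟩⟩
    have h1 := volume_sum_rpow_le (Fin n) (p := 1) le_rfl c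
    have h2 : {x : Fin n → ℝ | (∑ i, |x i| ^ (1 : ℝ)) ^ (1 / (1 : ℝ)) ≤ c} =
        {x : Fin n → ℝ | ∑ i, |x i| ≤ c} := by
      ext x
      simp
    rw [h2] at h1
    rw [h1]
    simp only [Fintype.card_fin, div_one]
    have h3 : Real.Gamma (1 + 1) = 1 := by
      have := Real.Gamma_nat_eq_factorial 1
      simpa using this
    rw [h3, Real.Gamma_nat_eq_factorial, ← ENNReal.ofReal_pow hc,
      ← ENNReal.ofReal_mul (pow_nonneg hc n)]
    apply le_of_eq
    congr 1
    rw [mul_one, mul_pow]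
    ring

/-- Volume and mean support function over sign vectors. -/
theorem vol_le_of_mean {n : ℕ} (L : Set (EuclideanSpace ℝ (Fin n))) (hL : IsCompact L) (c : ℝ) (hc : 0 ≤ c)
    (H : ∀ y : (Fin n → Bool) → EuclideanSpace ℝ (Fin n), (∀ θ, y θ ∈ L) →
      (∑ θ : Fin n → Bool, ∑ i, sg (θ i) * y θ i) / 2 ^ n ≤ c) :
    volume L ≤ ENNReal.ofReal ((2 * c) ^ n / n.factorial) := by
  rcases L.eq_empty_or_nonempty with hLe | hLne
  · subst hLe; simp
  have hex : ∀ θ : Fin n → Bool, ∃ y ∈ L, IsMaxOn (fun y : EuclideanSpace ℝ (Fin n) =>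
      ∑ i, sg (θ i) * y i) L y := by
    intro θ
    refine hL.exists_isMaxOn hLne ?_
    refine Continuous.continuousOn ?_
    fun_prop
  choose y hy hmax using hex
  set g : (Fin n → Bool) → ℝ := fun θ => ∑ i, sg (θ i) * y θ i with hgdef
  have hgL : ∀ x ∈ L, ∀ θ : Fin n → Bool, ∑ i, sg (θ i) * x i ≤ g θ := fun x hx θ => hmax θ hx
  obtain ⟨L', g', _, hv, hg', hs, hf⟩ := vlIter L hL g hgL n le_rfl
  refine hv.trans ((measure_mono ?_).trans (vlBall c hc))
  intro x hx
  have hconst : ∀ θ, g' θ ≤ c := by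
    intro θ
    have h1 : ∀ θ', g' θ' = g' θ := fun θ' => vlConst g' (fun k θ => hf k k.2 θ) θ' θ
    have h2 : ∑ θ', g' θ' = 2 ^ n * g' θ := by
      rw [Finset.sum_congr rfl fun θ' _ => h1 θ', Finset.sum_const, nsmul_eq_mul]
      simp
    have h3 := H y hy
    rw [div_le_iff₀ (by positivity)] at h3
    have h4 : (2 : ℝ) ^ n * g' θ ≤ 2 ^ n * c := by
      rw [← h2, hs]
      linarith
    exact le_of_mul_le_mul_left h4 (by positivity)
  have h5 := hg' x hx (fun i => decide (0 ≤ x i))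
  have h6 : ∑ i, sg (decide (0 ≤ x i)) * x i = ∑ i, |x i| := by
    refine Finset.sum_congr rfl fun i _ => ?_
    by_cases h : 0 ≤ x i
    · simp [sg, h, abs_of_nonneg h]
    · simp [sg, h, abs_of_neg (not_le.1 h)]
  rw [h6] at h5
  exact h5.trans (hconst _)

end Pool.Agent.Helper924_BV

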