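import Pool.Agent.Helper924_BV.Cover
import Pool.Agent.Helper924_BV.Rad
import Pool.Agent.Helper924_BV.Symm
import Pool.Agent.Helper924_BV.Auer

open MeasureTheory Metric Set Filter
open scoped ENNReal NNReal Pointwise Topology

namespace Pool.Agent.Helper924_BV

/-- The signs averages: `(signAvg y)_i = 2^{-n} ∑_ε ε_i y_ε`. -/
noncomputable def signAvg (n : ℕ) : ((Fin n → Bool) → ℝ) →L[ℝ] E n :=
  (EuclideanSpace.equiv (Fin n) ℝ).symm.toContinuousLinearMap.comp
    (ContinuousLinearMap.pi fun i => (1 / 2 ^ n : ℝ) • ∑ ε : Fin n → Bool, sg (ε i) • ContinuousLinearMap.proj ε)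

lemma signAvg_apply {n : ℕ} (y : (Fin n → Bool) → ℝ) (i : Fin n) :
    signAvg n y i = (1 / 2 ^ n) * ∑ ε : Fin n → Bool, sg (ε i) * y ε := by
  simp [signAvg]

theorem det_bound_sign {n m : ℕ} (hm : 0 < m) (hnm : n ≤ 2 ^ m) :
    DetBound (fun _ : Unit => (1 : ℝ≥0)) (fun _ : Unit => signAvg n)
      (Real.toNNReal ((8 * m) ^ n / n.factorial)) := by
  classical
  intro G
  simp only [Finset.univ_unique, Finset.sum_singleton, ENNReal.coe_one, one_mul]
  set T : E n →L[ℝ] E n := (signAvg n).comp G with hT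
  by_cases hdet : T.det = 0
  · simp [hdet]
  have hGinj : ∀ u, G u = 0 → u = 0 := by
    intro u hu
    have h1 : Function.Injective T :=
      (LinearMap.equivOfDetNeZero (T : E n →ₗ[ℝ] E n) hdet).injective
    apply h1
    simp [hT, hu]
  set B : Set (E n) := {u | ‖G u‖ ≤ 1} with hB
  have hBc : IsCompact B := by
    obtain ⟨K, hK0, hK⟩ := LinearMap.exists_antilipschitzWith (G : E n →ₗ[ℝ] ((Fin n → Bool) → ℝ))
      (LinearMap.ker_eq_bot'.2 hGinj)
    refine (isCompact_closedBall (0 : E n) K).of_isClosed_subset (isClosed_le (by fun_prop) continuous_const) ?_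
    intro u hu
    rw [mem_closedBall_zero_iff]
    have h1 : ‖u‖ ≤ K * ‖G u‖ := by
      have := hK.le_mul_dist u 0
      simpa [dist_eq_norm] using this
    have h2 : ‖G u‖ ≤ 1 := hu
    exact h1.trans (mul_le_of_le_one_right K.2 h2)
  have hspan : Submodule.span ℝ B = ⊤ := by
    have h1 : (0 : E n) ∈ interior B := by
      rw [mem_interior]
      refine ⟨{u | ‖G u‖ < 1}, fun u (hu : ‖G u‖ < 1) => (le_of_lt hu : ‖G u‖ ≤ 1), isOpen_lt (by fun_prop) continuous_const, by simp⟩
    have h2 : (interior (Submodule.span ℝ B : Set (E n))).Nonempty :=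
      ⟨0, interior_mono Submodule.subset_span h1⟩
    exact Submodule.eq_top_of_nonempty_interior' _ h2
  obtain ⟨u, b, hu, hb, hub⟩ := auerbach B hBc hspan
  have hmean := fun (y : (Fin n → Bool) → E n) (hy : ∀ θ, y θ ∈ B) =>
    rad_bound (n := n) (m := m) hm hnm B
      (fun ε => (LinearMap.proj ε : ((Fin n → Bool) → ℝ) →ₗ[ℝ] ℝ).comp (G : E n →ₗ[ℝ] ((Fin n → Bool) → ℝ)))
      (by
        intro ε v hv
        have h1 : ‖G v‖ ≤ 1 := hv
        simpa using (norm_le_pi_norm (G v) ε).trans h1) u b hu hb hub y hy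
  have hvol := vol_le_of_mean (T '' B) (hBc.image T.continuous) (4 * m) (by positivity) (by
    intro y hy
    choose z hz hzy using hy
    have h1 := hmean z hz
    refine le_trans (le_of_eq ?_) h1
    have h4 : (4 : ℝ) ^ n = 2 ^ n * 2 ^ n := by rw [← mul_pow]; norm_num
    rw [h4, ← div_div]
    congr 1
    rw [Finset.sum_div]
    refine Finset.sum_congr rfl fun θ _ => ?_
    rw [← hzy θ]
    have h5 : ∀ i, T (z θ) i = (1 / 2 ^ n) * ∑ ε : Fin n → Bool, sg (ε i) * G (z θ) ε := fun i => by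
      rw [hT]; exact signAvg_apply _ _
    simp_rw [h5]
    simp only [LinearMap.coe_comp, Function.comp_apply, LinearMap.proj_apply, ContinuousLinearMap.coe_coe]
    simp_rw [Finset.mul_sum, Finset.sum_mul]
    rw [Finset.sum_comm, Finset.sum_div]
    refine Finset.sum_congr rfl fun ε _ => ?_
    rw [Finset.sum_div]
    refine Finset.sum_congr rfl fun i _ => ?_
    ring)
  rw [Measure.addHaar_image_continuousLinearMap] at hvol
  refine hvol.trans (le_of_eq ?_)
  rw [← ENNReal.ofReal_coe_nnreal, Real.coe_toNNReal _ (by positivity)]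
  congr 2
  ring

/-- The linear labels `x ↦ (⟨ε, x⟩ / √n)_ε`. -/
noncomputable def signLabel (n : ℕ) : E n →L[ℝ] ((Fin n → Bool) → ℝ) :=
  ContinuousLinearMap.pi fun ε => (1 / Real.sqrt n) • ∑ i, sg (ε i) • (EuclideanSpace.proj i : E n →L[ℝ] ℝ)

lemma signLabel_apply {n : ℕ} (x : E n) (ε : Fin n → Bool) :
    signLabel n x ε = (1 / Real.sqrt n) * ∑ i, sg (ε i) * x i := by
  simp [signLabel]

lemma signLabel_norm {n : ℕ} (x : E n) : ‖signLabel n x‖ ≤ ‖x‖ := by
  rw [pi_norm_le_iff_of_nonneg (norm_nonneg _)]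
  intro ε
  rw [signLabel_apply, Real.norm_eq_abs]
  rcases Nat.eq_zero_or_pos n with rfl | hn
  · simp
  have hn' : (0 : ℝ) < Real.sqrt n := Real.sqrt_pos.2 (by exact_mod_cast hn)
  rw [abs_mul, abs_of_pos (by positivity), one_div, inv_mul_le_iff₀ hn']
  apply abs_le_of_sq_le_sq _ (by positivity)
  rw [mul_pow, Real.sq_sqrt (by positivity), EuclideanSpace.real_norm_sq_eq]
  have h1 := Finset.sum_mul_sq_le_sq_mul_sq Finset.univ (fun i => sg (ε i)) (fun i => x i)
  have h2 : ∑ i, sg (ε i) ^ 2 = (n : ℝ) := by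
    have : ∀ i, sg (ε i) ^ 2 = 1 := fun i => by unfold sg; split_ifs <;> norm_num
    simp [this]
  rwa [h2] at h1

lemma sg_orth {n : ℕ} (i j : Fin n) : ∑ ε : Fin n → Bool, sg (ε i) * sg (ε j) = if i = j then (2 : ℝ) ^ n else 0 := by
  have := rb_orth ({i} : Finset (Fin n)) {j}
  simpa [rbw] using this

lemma signAvg_signLabel {n : ℕ} (hn : 0 < n) (x : E n) : signAvg n (signLabel n x) = (1 / Real.sqrt n) • x := by
  ext i
  rw [signAvg_apply, PiLp.smul_apply, smul_eq_mul]
  simp_rw [signLabel_apply]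
  have h1 : ∀ ε : Fin n → Bool, sg (ε i) * ((1 / Real.sqrt n) * ∑ j, sg (ε j) * x j) =
      (1 / Real.sqrt n) * ∑ j, x j * (sg (ε i) * sg (ε j)) := by
    intro ε
    rw [Finset.mul_sum, Finset.mul_sum, Finset.mul_sum]
    exact Finset.sum_congr rfl fun j _ => by ring
  simp_rw [h1]
  rw [← Finset.mul_sum, Finset.sum_comm]
  simp_rw [← Finset.mul_sum, sg_orth]
  simp only [mul_ite, mul_zero, Finset.sum_ite_eq, Finset.mem_univ, if_true]
  field_simp

lemma det_signAvg_signLabel {n : ℕ} (hn : 0 < n) :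
    |((signAvg n).comp (signLabel n)).det| = (1 / Real.sqrt n) ^ n := by
  have h1 : (signAvg n).comp (signLabel n) = (1 / Real.sqrt n) • ContinuousLinearMap.id ℝ (E n) := by
    ext1 x
    simpa using signAvg_signLabel hn x
  rw [h1]
  have h2 : (((1 / Real.sqrt n) • ContinuousLinearMap.id ℝ (E n) : E n →L[ℝ] E n)).det = (1 / Real.sqrt n) ^ n := by
    show LinearMap.det (((1 / Real.sqrt n) • ContinuousLinearMap.id ℝ (E n) : E n →L[ℝ] E n) : E n →ₗ[ℝ] E n) = _
    rw [ContinuousLinearMap.toLinearMap_smul, LinearMap.det_smul]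
    simp
  rw [h2, abs_of_nonneg (by positivity)]

end Pool.Agent.Helper924_BV
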