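import Mathlib
/-! helper924, MP_8115c2_gt, job NRM: the normalising constant of Hausdorff measure, one inequality. -/
open MeasureTheory Measure Metric
open scoped ENNReal
namespace Pool.Agent.Helper924_BV

open Filter Topology in
theorem muH_ball_le {n : ℕ} (hn : 0 < n) :
    (μH[(n : ℝ)] : Measure (EuclideanSpace ℝ (Fin n))) (closedBall (0 : EuclideanSpace ℝ (Fin n)) 1) ≤
      2 ^ n := by
  set E := EuclideanSpace ℝ (Fin n) with hE
  set ω : ℝ≥0∞ := volume (closedBall (0 : E) 1) with hω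
  have hω0 : ω ≠ 0 := (measure_closedBall_pos volume (0 : E) one_pos).ne'
  have hωt : ω ≠ ∞ := measure_closedBall_lt_top.ne
  have hfr : Module.finrank ℝ E = n := finrank_euclideanSpace_fin
  have hcov : ∀ k : ℕ, ∃ (t : Set E) (r : E → ℝ), t.Countable ∧ t ⊆ closedBall (0 : E) 1 ∧
      (∀ x ∈ t, r x ∈ Set.Ioo (0 : ℝ) (1 / ((k : ℝ) + 1))) ∧
      (closedBall (0 : E) 1 ⊆ ⋃ x ∈ t, closedBall x (r x)) ∧
      (∑' x : t, volume (closedBall (x : E) (r x))) ≤ ω + ((k : ℝ≥0∞))⁻¹ := by
    intro k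
    refine Besicovitch.exists_closedBall_covering_tsum_measure_le volume
      (ε := ((k : ℝ≥0∞))⁻¹) (by simp) (fun _ => Set.Ioo (0 : ℝ) (1 / ((k : ℝ) + 1))) _ ?_
    intro x _ δ hδ
    have hk : 0 < 1 / ((k : ℝ) + 1) := by positivity
    refine ⟨min (1 / ((k : ℝ) + 1)) δ / 2, ⟨?_, ?_⟩, ?_, ?_⟩
    · have := lt_min hk hδ; linarith
    · have := min_le_left (1 / ((k : ℝ) + 1)) δ
      have h2 := lt_min hk hδ; linarith
    · have := lt_min hk hδ; linarith
    · have := min_le_right (1 / ((k : ℝ) + 1)) δ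
      have h2 := lt_min hk hδ; linarith
  choose t r htc hts hr hcv hsum using hcov
  have : ∀ k, Countable (t k) := fun k => (htc k).to_subtype
  have hdiam : ∀ k (x : t k), ediam (closedBall (x : E) (r k x)) ≤ ENNReal.ofReal (2 * r k x) := by
    intro k x
    refine ediam_le_of_forall_dist_le fun y hy z hz => ?_
    rw [mem_closedBall] at hy hz
    calc dist y z ≤ dist y x + dist z x := dist_triangle_right _ _ _
      _ ≤ 2 * r k x := by linarith
  have h1 := hausdorffMeasure_le_liminf_tsum (n : ℝ) (closedBall (0 : E) 1) (l := atTop)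
    (fun k : ℕ => ENNReal.ofReal (2 * (1 / ((k : ℝ) + 1))))
    (by
      have h2 : Tendsto (fun k : ℕ => 2 * (1 / ((k : ℝ) + 1))) atTop (𝓝 (2 * 0)) :=
        tendsto_one_div_add_atTop_nhds_zero_nat.const_mul 2
      rw [mul_zero] at h2
      simpa using ENNReal.tendsto_ofReal h2)
    (fun k (x : t k) => closedBall (x : E) (r k x))
    (Eventually.of_forall fun k x => (hdiam k x).trans (ENNReal.ofReal_le_ofReal (by
      have := (hr k x x.2).2; linarith)))
    (Eventually.of_forall fun k => by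
      refine (hcv k).trans ?_
      intro y hy
      simp only [Set.mem_iUnion] at hy ⊢
      obtain ⟨x, hx, hy⟩ := hy
      exact ⟨⟨x, hx⟩, hy⟩)
  have hterm : ∀ k (x : t k), ediam (closedBall (x : E) (r k x)) ^ (n : ℝ) ≤
      2 ^ n / ω * volume (closedBall (x : E) (r k x)) := by
    intro k x
    have hr0 : 0 ≤ r k x := (hr k x x.2).1.le
    rw [addHaar_closedBall' volume (x : E) hr0, ENNReal.rpow_natCast]
    calc ediam (closedBall (x : E) (r k x)) ^ n ≤ (ENNReal.ofReal (2 * r k x)) ^ n := by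
          gcongr; exact hdiam k x
      _ = 2 ^ n * ENNReal.ofReal (r k x ^ n) := by
          rw [ENNReal.ofReal_mul (by norm_num), mul_pow, ENNReal.ofReal_pow hr0]
          norm_num
      _ = 2 ^ n / ω * (ENNReal.ofReal (r k x ^ Module.finrank ℝ E) * ω) := by
          rw [hfr, mul_comm (ENNReal.ofReal _) ω, ← mul_assoc,
            ENNReal.div_mul_cancel hω0 hωt]
  have h2 : (μH[(n : ℝ)] : Measure E) (closedBall (0 : E) 1) ≤
      liminf (fun k : ℕ => 2 ^ n / ω * (ω + ((k : ℝ≥0∞))⁻¹)) atTop := by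
    refine h1.trans (liminf_le_liminf (Eventually.of_forall fun k => ?_))
    show (∑' x : t k, ediam (closedBall (x : E) (r k x)) ^ (n : ℝ)) ≤ _
    calc (∑' x : t k, ediam (closedBall (x : E) (r k x)) ^ (n : ℝ))
        ≤ ∑' x : t k, 2 ^ n / ω * volume (closedBall (x : E) (r k x)) :=
          ENNReal.tsum_le_tsum fun x => hterm k x
      _ = 2 ^ n / ω * ∑' x : t k, volume (closedBall (x : E) (r k x)) := ENNReal.tsum_mul_left
      _ ≤ _ := by gcongr; exact hsum k
  have h3 : Tendsto (fun k : ℕ => 2 ^ n / ω * (ω + ((k : ℝ≥0∞))⁻¹)) atTop (𝓝 (2 ^ n / ω * (ω + 0))) := by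
    refine ENNReal.Tendsto.const_mul ?_ (Or.inr ?_)
    · exact tendsto_const_nhds.add ENNReal.tendsto_inv_nat_nhds_zero
    · exact ENNReal.div_ne_top (by simp) hω0
  rw [h3.liminf_eq, add_zero, ENNReal.div_mul_cancel hω0 hωt] at h2
  exact h2

/-- The normalising constant of the Euclidean Hausdorff measure, one inequality. -/
theorem muHE_ge {n : ℕ} (hn : 0 < n) {X : Type*} [MetricSpace X] [MeasurableSpace X] [BorelSpace X] (A : Set X) :
    volume (closedBall (0 : EuclideanSpace ℝ (Fin n)) 1) / 2 ^ n * μH[(n : ℝ)] A ≤ μHE[n] A := by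
  have h1 := isAddLeftInvariant_eq_smul (volume : Measure (EuclideanSpace ℝ (Fin n))) μH[(n : ℝ)]
  have h2 : volume (closedBall (0 : EuclideanSpace ℝ (Fin n)) 1) / 2 ^ n ≤
      (addHaarScalarFactor (volume : Measure (EuclideanSpace ℝ (Fin n))) μH[(n : ℝ)] : ℝ≥0∞) := by
    refine ENNReal.div_le_of_le_mul ?_
    calc volume (closedBall (0 : EuclideanSpace ℝ (Fin n)) 1)
        = (addHaarScalarFactor (volume : Measure (EuclideanSpace ℝ (Fin n))) μH[(n : ℝ)] : ℝ≥0∞) *
          μH[(n : ℝ)] (closedBall (0 : EuclideanSpace ℝ (Fin n)) 1) := by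
          conv_lhs => rw [h1]
          rfl
      _ ≤ _ := by gcongr; exact muH_ball_le hn
  rw [euclideanHausdorffMeasure_def]
  show _ ≤ (addHaarScalarFactor (volume : Measure (EuclideanSpace ℝ (Fin n))) μH[(n : ℝ)] : ℝ≥0∞) *
    μH[(n : ℝ)] A
  gcongr

end Pool.Agent.Helper924_BV

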