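import Mathlib
/-! helper924, MP_8115c2_gt, job NUM: `n! ω_n ≥ n^{n/2}`. -/
open MeasureTheory Metric
namespace Pool.Agent.Helper924_BV

/-- the left side, by the formula for the volume -/
noncomputable def num_a (n : ℕ) : ℝ :=
  (n.factorial : ℝ) * (Real.sqrt Real.pi ^ n / Real.Gamma ((n : ℝ) / 2 + 1))

theorem num_a_step (n : ℕ) : num_a (n + 2) = 2 * Real.pi * (n + 1) * num_a n := by
  unfold num_a
  have h1 : ((n + 2 : ℕ) : ℝ) / 2 + 1 = ((n : ℝ) / 2 + 1) + 1 := by push_cast; ring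
  have h2 : (0 : ℝ) < (n : ℝ) / 2 + 1 := by positivity
  have hG : 0 < Real.Gamma ((n : ℝ) / 2 + 1) := Real.Gamma_pos_of_pos h2
  rw [h1, Real.Gamma_add_one h2.ne', Nat.factorial_succ, Nat.factorial_succ, pow_add,
    Real.sq_sqrt Real.pi_pos.le]
  push_cast
  have h3 : ((n : ℝ) / 2 + 1) = ((n : ℝ) + 2) / 2 := by ring
  field_simp
  ring

theorem num_sqrt (n : ℕ) : Real.sqrt (n + 2 : ℕ) ^ (n + 2) ≤
    2 * Real.pi * (n + 1) * Real.sqrt n ^ n := by
  rcases Nat.eq_zero_or_pos n with rfl | hn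
  · have := Real.pi_gt_three
    norm_num
    linarith
  have hn' : (0 : ℝ) < n := by exact_mod_cast hn
  have h1 : Real.sqrt (n + 2 : ℕ) ≤ Real.sqrt n * Real.exp (1 / n) := by
    rw [Real.sqrt_le_iff]
    refine ⟨by positivity, ?_⟩
    rw [mul_pow, Real.sq_sqrt hn'.le, ← Real.exp_nat_mul]
    have h2 := Real.add_one_le_exp ((2 : ℕ) * (1 / (n : ℝ)))
    have h3 : ((n + 2 : ℕ) : ℝ) = n * (((2 : ℕ) : ℝ) * (1 / n) + 1) := by
      push_cast
      field_simp
      ring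
    rw [h3]
    exact mul_le_mul_of_nonneg_left h2 hn'.le
  have h2 : Real.sqrt (n + 2 : ℕ) ^ n ≤ Real.sqrt n ^ n * Real.exp 1 := by
    calc Real.sqrt (n + 2 : ℕ) ^ n ≤ (Real.sqrt n * Real.exp (1 / n)) ^ n :=
          pow_le_pow_left₀ (Real.sqrt_nonneg _) h1 n
      _ = Real.sqrt n ^ n * Real.exp 1 := by
          rw [mul_pow, ← Real.exp_nat_mul]
          congr 2
          field_simp
  rw [pow_add, Real.sq_sqrt (Nat.cast_nonneg _)]
  have h3 : Real.exp 1 * ((n + 2 : ℕ) : ℝ) ≤ 2 * Real.pi * (n + 1) := by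
    have h4 := Real.exp_one_lt_d9
    have h5 := Real.pi_gt_three
    have h6 : (1 : ℝ) ≤ n := by exact_mod_cast hn
    push_cast
    nlinarith
  have h4 : 0 ≤ Real.sqrt n ^ n := by positivity
  calc Real.sqrt (n + 2 : ℕ) ^ n * ((n + 2 : ℕ) : ℝ)
      ≤ Real.sqrt n ^ n * Real.exp 1 * ((n + 2 : ℕ) : ℝ) :=
        mul_le_mul_of_nonneg_right h2 (Nat.cast_nonneg _)
    _ = Real.sqrt n ^ n * (Real.exp 1 * ((n + 2 : ℕ) : ℝ)) := by ring
    _ ≤ Real.sqrt n ^ n * (2 * Real.pi * (n + 1)) := mul_le_mul_of_nonneg_left h3 h4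
    _ = _ := by ring

theorem num_le (n : ℕ) : (Real.sqrt n) ^ n ≤ num_a n := by
  induction n using Nat.twoStepInduction with
  | zero => simp [num_a]
  | one =>
    have h1 : Real.Gamma ((1 : ℕ) / 2 + 1) = 1 / 2 * Real.sqrt Real.pi := by
      rw [Nat.cast_one, Real.Gamma_add_one (by norm_num), Real.Gamma_one_half_eq]
    unfold num_a
    rw [h1]
    have h2 : 0 < Real.sqrt Real.pi := Real.sqrt_pos.2 Real.pi_pos
    have h3 : Real.sqrt Real.pi ^ 1 / (1 / 2 * Real.sqrt Real.pi) = 2 := by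
      field_simp
    rw [h3]
    norm_num
  | more n ih _ =>
    rw [num_a_step]
    exact (num_sqrt n).trans (mul_le_mul_of_nonneg_left ih (by positivity))

/-- a numerical bound -/
theorem num_bound (n : ℕ) :
    (Real.sqrt n) ^ n ≤ (n.factorial : ℝ) * (volume (closedBall (0 : EuclideanSpace ℝ (Fin n)) 1)).toReal := by
  rcases Nat.eq_zero_or_pos n with rfl | hn
  · have h1 : (closedBall (0 : EuclideanSpace ℝ (Fin 0)) 1) = Set.univ := by
      ext x
      simp [Subsingleton.elim x 0]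
    rw [h1, volume_euclideanSpace_eq_dirac]
    simp
  have : Nonempty (Fin n) := ⟨⟨0, hn⟩⟩
  have h1 : (volume (closedBall (0 : EuclideanSpace ℝ (Fin n)) 1)).toReal =
      Real.sqrt Real.pi ^ n / Real.Gamma ((n : ℝ) / 2 + 1) := by
    rw [EuclideanSpace.volume_closedBall]
    simp only [ENNReal.ofReal_one, one_pow, one_mul, Fintype.card_fin]
    apply ENNReal.toReal_ofReal
    have : 0 < Real.Gamma ((n : ℝ) / 2 + 1) := Real.Gamma_pos_of_pos (by positivity)
    positivity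
  rw [h1]
  exact num_le n

end Pool.Agent.Helper924_BV

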