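import Pool.Agent.Helper924_BV.Local

open MeasureTheory Metric Set Filter
open scoped ENNReal NNReal Pointwise Topology

namespace Pool.Agent.Helper924_BV

/-- The determinant inequality for the weighted family of linear maps `P j`: the weighted sum of the `|det (P j ∘ G)|` times the
volume of the unit ball of the seminorm `‖G u‖` is at most `M`, for every linear `G : ℝⁿ → ℝ^ι` (sup norm on `ℝ^ι`). -/
def DetBound {n : ℕ} {ι J : Type*} [Fintype ι] [Fintype J] (w : J → ℝ≥0) (P : J → (ι → ℝ) →L[ℝ] E n) (M : ℝ≥0) : Prop :=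
  ∀ G : E n →L[ℝ] (ι → ℝ),
    (∑ j, (w j : ℝ≥0∞) * ENNReal.ofReal |((P j).comp G).det|) * volume {u : E n | ‖G u‖ ≤ 1} ≤ M

lemma approx_comp {n : ℕ} {ι : Type*} [Fintype ι] (P : (ι → ℝ) →L[ℝ] E n) {f : E n → (ι → ℝ)}
    {G : E n →L[ℝ] (ι → ℝ)} {A : Set (E n)} {δ δ' : ℝ≥0} (h : ApproximatesLinearOn f G A δ) (hδ : ‖P‖₊ * δ ≤ δ') :
    ApproximatesLinearOn (fun x => P (f x)) (P.comp G) A δ' := by
  intro x hx y hy
  have h1 := h x hx y hy
  have h2 : P (f x) - P (f y) - (P.comp G) (x - y) = P (f x - f y - G (x - y)) := by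
    simp [map_sub]
  rw [h2]
  calc ‖P (f x - f y - G (x - y))‖ ≤ ‖P‖ * ‖f x - f y - G (x - y)‖ := P.le_opNorm _
    _ ≤ ‖P‖ * (δ * ‖x - y‖) := by gcongr
    _ = (‖P‖₊ * δ : ℝ≥0) * ‖x - y‖ := by push_cast; ring
    _ ≤ δ' * ‖x - y‖ := by gcongr

theorem piece {n : ℕ} (hn : 0 < n) {ι J : Type*} [Fintype ι] [Fintype J] (w : J → ℝ≥0)
    (P : J → (ι → ℝ) →L[ℝ] E n) (M : ℝ≥0) (H : DetBound w P M) (η : ℝ≥0) (hη : 0 < η)
    (G : E n →L[ℝ] (ι → ℝ)) : ∃ δ : ℝ≥0, 0 < δ ∧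
      ∀ {X : Type} [MetricSpace X] [MeasurableSpace X] [BorelSpace X] (F : X → (ι → ℝ)) (_ : LipschitzWith 1 F)
        (φ : E n → X) (A : Set (E n)) (_ : ApproximatesLinearOn (F ∘ φ) G A δ),
      ∑ j, (w j : ℝ≥0∞) * volume (P j '' (F '' (φ '' A))) ≤
        (1 + η) * M * (1 / 2 ^ n) * μH[(n : ℝ)] (φ '' A) + η * volume A := by
  classical
  -- the error for each `j`
  set W : ℝ≥0 := ∑ j, w j with hW
  set η' : ℝ≥0 := η / (W + 1) with hη'
  have hη'0 : 0 < η' := by positivity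
  have hj : ∀ j, ∃ δ : ℝ≥0, 0 < δ ∧ ∀ (s : Set (E n)) (f : E n → E n),
      ApproximatesLinearOn f ((P j).comp G) s δ →
        volume (f '' s) ≤ (ENNReal.ofReal |((P j).comp G).det| + η') * volume s := by
    intro j
    have h1 : ENNReal.ofReal |((P j).comp G).det| < ((Real.toNNReal |((P j).comp G).det| + η' : ℝ≥0) : ℝ≥0∞) := by
      rw [ENNReal.coe_add]
      exact ENNReal.lt_add_right ENNReal.ofReal_ne_top (by simpa using hη'0.ne')
    obtain ⟨δ, hδ, hδ0⟩ := ((addHaar_image_le_mul_of_det_lt volume ((P j).comp G) h1).and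
      self_mem_nhdsWithin).exists
    refine ⟨δ, hδ0, fun s f hf => ?_⟩
    have := hδ s f hf
    rwa [ENNReal.coe_add] at this
  choose d hd0 hd using hj
  -- a common `δ` for all `j`
  obtain ⟨δ₁, hδ₁0, hδ₁⟩ : ∃ δ₁ : ℝ≥0, 0 < δ₁ ∧ ∀ j, ‖P j‖₊ * δ₁ ≤ d j := by
    have : ∀ᶠ δ₁ : ℝ≥0 in 𝓝[>] 0, ∀ j, ‖P j‖₊ * δ₁ ≤ d j := by
      rw [eventually_all]
      intro j
      have h1 : Tendsto (fun δ₁ : ℝ≥0 => ‖P j‖₊ * δ₁) (𝓝[>] 0) (𝓝 0) := by
        have h2 : Tendsto (fun δ₁ : ℝ≥0 => ‖P j‖₊ * δ₁) (𝓝 0) (𝓝 (‖P j‖₊ * 0)) :=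
          (continuous_const.mul continuous_id).tendsto 0
        rw [mul_zero] at h2
        exact h2.mono_left nhdsWithin_le_nhds
      exact (h1.eventually_lt_const (hd0 j)).mono fun _ h => h.le
    obtain ⟨δ, h1, h2⟩ := (this.and self_mem_nhdsWithin).exists
    exact ⟨δ, h2, h1⟩
  -- the main estimate
  have main : ∀ δ : ℝ≥0, δ ≤ δ₁ → ∀ {X : Type} [MetricSpace X] [MeasurableSpace X] [BorelSpace X] (F : X → (ι → ℝ))
      (φ : E n → X) (A : Set (E n)) (_ : ApproximatesLinearOn (F ∘ φ) G A δ),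
      ∑ j, (w j : ℝ≥0∞) * volume (P j '' (F '' (φ '' A))) ≤
        (∑ j, (w j : ℝ≥0∞) * ENNReal.ofReal |((P j).comp G).det|) * volume A + η * volume A := by
    intro δ hδ X _ _ _ F φ A hA
    have h1 : ∀ j, volume (P j '' (F '' (φ '' A))) ≤
        (ENNReal.ofReal |((P j).comp G).det| + η') * volume A := by
      intro j
      have h2 := hd j A (fun x => P j ((F ∘ φ) x))
        (approx_comp (P j) hA ((mul_le_mul_right hδ _).trans (hδ₁ j)))
      rw [← image_comp, ← image_comp]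
      exact h2
    calc ∑ j, (w j : ℝ≥0∞) * volume (P j '' (F '' (φ '' A)))
        ≤ ∑ j, (w j : ℝ≥0∞) * ((ENNReal.ofReal |((P j).comp G).det| + η') * volume A) :=
          Finset.sum_le_sum fun j _ => by gcongr; exact h1 j
      _ = (∑ j, (w j : ℝ≥0∞) * ENNReal.ofReal |((P j).comp G).det|) * volume A + (∑ j, (w j : ℝ≥0∞)) * η' * volume A := by
          rw [Finset.sum_mul, Finset.sum_mul, Finset.sum_mul, ← Finset.sum_add_distrib]
          exact Finset.sum_congr rfl fun j _ => by ring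
      _ ≤ _ := by
          gcongr
          rw [← ENNReal.ofNNReal_finsetSum, ← ENNReal.coe_mul, ENNReal.coe_le_coe, ← hW, hη']
          rw [mul_div_assoc']
          refine div_le_of_le_mul₀ (by positivity) (by positivity) ?_
          rw [mul_comm]
          gcongr
          simp
  by_cases hG : ∀ u, G u = 0 → u = 0
  · obtain ⟨K, hK, hGK⟩ : ∃ a : ℝ≥0, 0 < a ∧ ∀ u, a * ‖u‖ ≤ ‖G u‖ := by
      have hker : LinearMap.ker (G : E n →ₗ[ℝ] (ι → ℝ)) = ⊥ := LinearMap.ker_eq_bot'.2 hG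
      obtain ⟨K, hK0, hK⟩ := LinearMap.exists_antilipschitzWith (G : E n →ₗ[ℝ] (ι → ℝ)) hker
      refine ⟨K⁻¹, by positivity, fun u => ?_⟩
      have h1 : ‖u‖ ≤ K * ‖G u‖ := by
        have := hK.le_mul_dist u 0
        simpa [dist_eq_norm] using this
      rw [NNReal.coe_inv, inv_mul_le_iff₀ (by exact_mod_cast hK0)]
      exact h1
    obtain ⟨δ₂, hδ₂0, hδ₂K, hδ₂⟩ : ∃ δ₂ : ℝ≥0, 0 < δ₂ ∧ δ₂ < K ∧
        ∀ δ : ℝ≥0, δ ≤ δ₂ → ((K : ℝ) / (2 * (K - δ))) ^ n ≤ (1 + η) * (1 / 2 ^ n) := by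
      have hKr : (0 : ℝ) < K := by exact_mod_cast hK
      have h1 : Tendsto (fun δ : ℝ => ((K : ℝ) / (2 * (K - δ))) ^ n) (𝓝 0) (𝓝 ((1 / 2 : ℝ) ^ n)) := by
        have : ContinuousAt (fun δ : ℝ => ((K : ℝ) / (2 * (K - δ))) ^ n) 0 := by
          apply ContinuousAt.pow
          apply ContinuousAt.div continuousAt_const
          · fun_prop
          · simp [hKr.ne']
        have h2 : ((K : ℝ) / (2 * (K - 0))) ^ n = (1 / 2) ^ n := by
          rw [sub_zero]; congr 1; field_simp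
        rw [← h2]
        exact this
      have h3 : ((1 / 2 : ℝ) ^ n) < (1 + η) * (1 / 2 ^ n) := by
        rw [one_div_pow]
        have : (0 : ℝ) < 1 / 2 ^ n := by positivity
        have h4 : (0 : ℝ) < η := by exact_mod_cast hη
        nlinarith
      obtain ⟨ε, hε, hε'⟩ := Metric.eventually_nhds_iff.1 (h1.eventually_lt_const h3)
      refine ⟨min (Real.toNNReal (ε / 2)) (K / 2), lt_min (by simpa using hε) (by positivity),
        (min_le_right _ _).trans_lt (NNReal.half_lt_self hK.ne'), fun δ hδ => ?_⟩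
      refine (hε' ?_).le
      rw [dist_zero_right, Real.norm_eq_abs, NNReal.abs_eq]
      have h5 : (δ : ℝ) ≤ ε / 2 := by
        have := hδ.trans (min_le_left _ _)
        rwa [Real.le_toNNReal_iff_coe_le (by positivity)] at this
      linarith
    refine ⟨min δ₁ δ₂, lt_min hδ₁0 hδ₂0, ?_⟩
    intro X _ _ _ F hF φ A hA
    refine (main _ (min_le_left _ _) F φ A hA).trans ?_
    refine add_le_add ?_ le_rfl
    have h1 := local_volume hn hF ((min_le_right _ _).trans_lt hδ₂K) hGK hA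
    calc (∑ j, (w j : ℝ≥0∞) * ENNReal.ofReal |((P j).comp G).det|) * volume A
        ≤ (∑ j, (w j : ℝ≥0∞) * ENNReal.ofReal |((P j).comp G).det|) *
          (ENNReal.ofReal (((K : ℝ) / (2 * (K - (min δ₁ δ₂ : ℝ≥0)))) ^ n) * volume {u : E n | ‖G u‖ ≤ 1} * μH[(n : ℝ)] (φ '' A)) := by
          gcongr
      _ = ((∑ j, (w j : ℝ≥0∞) * ENNReal.ofReal |((P j).comp G).det|) * volume {u : E n | ‖G u‖ ≤ 1}) *
          ENNReal.ofReal (((K : ℝ) / (2 * (K - (min δ₁ δ₂ : ℝ≥0)))) ^ n) * μH[(n : ℝ)] (φ '' A) := by ring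
      _ ≤ M * ((1 + η) * (1 / 2 ^ n)) * μH[(n : ℝ)] (φ '' A) := by
          gcongr
          · exact H G
          · have h2 := ENNReal.ofReal_le_ofReal (hδ₂ _ (min_le_right δ₁ δ₂))
            refine h2.trans (le_of_eq ?_)
            rw [ENNReal.ofReal_mul (by positivity), ENNReal.ofReal_add (by positivity) (by positivity)]
            simp only [ENNReal.ofReal_one, ENNReal.ofReal_coe_nnreal]
            congr 1
            rw [one_div, ENNReal.ofReal_inv_of_pos (by positivity), ENNReal.ofReal_pow (by positivity)]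
            simp
      _ = _ := by ring
  · refine ⟨δ₁, hδ₁0, ?_⟩
    intro X _ _ _ F hF φ A hA
    refine (main _ le_rfl F φ A hA).trans ?_
    have h0 : ∀ j, ((P j).comp G).det = 0 := by
      intro j
      push Not at hG
      obtain ⟨u, hu, hu0⟩ := hG
      by_contra hdet
      have h1 : Function.Injective ((P j).comp G) := by
        have := (LinearMap.equivOfDetNeZero (((P j).comp G : E n →L[ℝ] E n) : E n →ₗ[ℝ] E n) hdet).injective
        exact this
      apply hu0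
      apply h1
      simp [hu]
    simp [h0]

end Pool.Agent.Helper924_BV
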