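import Mathlib

/-! Public definitions for MP_8115c2_gt (minimal Hausdorff volume of balls dominating Euclidean boundary distances). -/

open MeasureTheory Metric Set
open scoped ENNReal NNReal

namespace Pool.Agent.Helper924_BV

/-- The metric of `X`, transported to the closed Euclidean unit ball by the homeomorphism `h`, is on the boundary sphere at
least the Euclidean distance. -/
def DominatesOnSphere {n : ℕ} {X : Type} [MetricSpace X]
    (h : closedBall (0 : EuclideanSpace ℝ (Fin n)) 1 ≃ₜ X) : Prop :=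
  ∀ x y : closedBall (0 : EuclideanSpace ℝ (Fin n)) 1,
    ‖(x : EuclideanSpace ℝ (Fin n))‖ = 1 → ‖(y : EuclideanSpace ℝ (Fin n))‖ = 1 →
      dist (x : EuclideanSpace ℝ (Fin n)) (y : EuclideanSpace ℝ (Fin n)) ≤ dist (h x) (h y)

/-- The metric space `X` is countably `n`-rectifiable: up to a set of `n`-dimensional Hausdorff measure zero it is covered by
countably many images `φ i (A i)`, where `A i` is a subset of `ℝⁿ` and `φ i` is Lipschitz on `A i`. -/
def Rectifiable (n : ℕ) (X : Type) [MetricSpace X] [MeasurableSpace X] [BorelSpace X] : Prop :=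
  ∃ (A : ℕ → Set (EuclideanSpace ℝ (Fin n))) (φ : ℕ → EuclideanSpace ℝ (Fin n) → X) (L : ℕ → ℝ≥0),
    (∀ i, LipschitzOnWith (L i) (φ i) (A i)) ∧ μH[(n : ℝ)] (⋃ i, φ i '' A i)ᶜ = 0

end Pool.Agent.Helper924_BV
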