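import Pool.Agent.Helper924_BV.Pub
import Pool.Agent.Helper924_BV.Defs

open MeasureTheory Metric Set Filter
open scoped ENNReal NNReal Topology

namespace Pool.Agent.Helper924_BV

/-- Extension of a Lipschitz map with values in a complete space to the closure. -/
lemma extend_closure {α X : Type*} [PseudoMetricSpace α] [MetricSpace X] [CompleteSpace X] {A : Set α} {φ : α → X}
    {L : ℝ≥0} (hφ : LipschitzOnWith L φ A) : ∃ ψ : α → X, LipschitzOnWith L ψ (closure A) ∧ EqOn φ ψ A := by
  classical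
  rcases A.eq_empty_or_nonempty with rfl | ⟨a₀, -⟩
  · exact ⟨φ, by simpa using hφ, fun x hx => rfl⟩
  have : Nonempty X := ⟨φ a₀⟩
  have hlim : ∀ x ∈ closure A, ∃ y, Tendsto φ (𝓝[A] x) (𝓝 y) := by
    intro x hx
    have : (𝓝[A] x).NeBot := mem_closure_iff_nhdsWithin_neBot.1 hx
    have h1 : Cauchy (map φ (𝓝[A] x)) := by
      rw [Metric.cauchy_iff]
      refine ⟨inferInstance, fun ε hε => ?_⟩
      have hLp : (0 : ℝ) < L + 1 := by positivity
      refine ⟨φ '' (A ∩ ball x (ε / (2 * (L + 1)))), image_mem_map ?_, ?_⟩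
      · rw [inter_comm]
        exact inter_mem (mem_nhdsWithin_of_mem_nhds (ball_mem_nhds x (by positivity))) self_mem_nhdsWithin
      · rintro _ ⟨a, ha, rfl⟩ _ ⟨b, hb, rfl⟩
        calc dist (φ a) (φ b) ≤ L * dist a b := hφ.dist_le_mul a ha.1 b hb.1
          _ ≤ (L + 1) * dist a b := by gcongr; linarith
          _ < (L + 1) * (ε / (L + 1)) := by
              apply mul_lt_mul_of_pos_left _ hLp
              calc dist a b ≤ dist a x + dist b x := dist_triangle_right _ _ _
                _ < ε / (2 * (L + 1)) + ε / (2 * (L + 1)) := add_lt_add ha.2 hb.2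
                _ = ε / (L + 1) := by field_simp; ring
          _ = ε := by field_simp
    exact CompleteSpace.complete h1
  choose! y hy using hlim
  let ψ : α → X := fun x => if x ∈ A then φ x else y x
  have hψA : EqOn φ ψ A := fun x hx => by simp [ψ, hx]
  have hψ : ∀ x ∈ closure A, Tendsto φ (𝓝[A] x) (𝓝 (ψ x)) := by
    intro x hx
    by_cases hxA : x ∈ A
    · rw [← hψA hxA]
      exact hφ.continuousOn x hxA
    · simpa [ψ, hxA] using hy x hx
  refine ⟨ψ, LipschitzOnWith.of_dist_le_mul fun a ha b hb => ?_, hψA⟩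
  have hne : (𝓝[A] a ×ˢ 𝓝[A] b).NeBot := by
    have h1 := mem_closure_iff_nhdsWithin_neBot.1 ha
    have h2 := mem_closure_iff_nhdsWithin_neBot.1 hb
    infer_instance
  have h3 : Tendsto (fun p : α × α => dist (φ p.1) (φ p.2)) (𝓝[A] a ×ˢ 𝓝[A] b) (𝓝 (dist (ψ a) (ψ b))) :=
    ((hψ a ha).comp tendsto_fst).dist ((hψ b hb).comp tendsto_snd)
  have h4 : Tendsto (fun p : α × α => (L : ℝ) * dist p.1 p.2) (𝓝[A] a ×ˢ 𝓝[A] b) (𝓝 (L * dist a b)) := by
    apply Tendsto.const_mul
    exact ((tendsto_id'.2 nhdsWithin_le_nhds : Tendsto id (𝓝[A] a) (𝓝 a)).comp tendsto_fst).dist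
      ((tendsto_id'.2 nhdsWithin_le_nhds : Tendsto id (𝓝[A] b) (𝓝 b)).comp tendsto_snd)
  refine le_of_tendsto_of_tendsto h3 h4 ?_
  have h5 : ∀ᶠ p : α × α in 𝓝[A] a ×ˢ 𝓝[A] b, p.1 ∈ A ∧ p.2 ∈ A :=
    (eventually_mem_nhdsWithin.prod_mk eventually_mem_nhdsWithin)
  exact h5.mono fun p hp => hφ.dist_le_mul _ hp.1 _ hp.2

/-- In a complete space one may take the sets in the definition of rectifiability compact. -/
theorem Rectifiable.compact {n : ℕ} {X : Type} [MetricSpace X] [CompleteSpace X] [MeasurableSpace X] [BorelSpace X]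
    (hX : Rectifiable n X) : CountablyRectifiable n X := by
  obtain ⟨A, φ, L, hφ, h0⟩ := hX
  choose ψ hψ hψeq using fun i => extend_closure (hφ i)
  refine ⟨fun m => closure (A (Nat.unpair m).1) ∩ closedBall 0 (Nat.unpair m).2, fun m => ψ (Nat.unpair m).1,
    fun m => L (Nat.unpair m).1, fun m => ?_, fun m => (hψ _).mono inter_subset_left, ?_⟩
  · exact (isCompact_closedBall _ _).inter_left isClosed_closure
  · refine measure_mono_null (compl_subset_compl.2 ?_) h0
    refine iUnion_subset fun i => ?_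
    rintro _ ⟨x, hx, rfl⟩
    obtain ⟨k, hk⟩ := exists_nat_ge ‖x‖
    refine mem_iUnion.2 ⟨Nat.pair i k, x, ?_, ?_⟩
    · simp only [Nat.unpair_pair]
      exact ⟨subset_closure hx, by simpa using hk⟩
    · simp only [Nat.unpair_pair]
      exact (hψeq i hx).symm

end Pool.Agent.Helper924_BV
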